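import Pool.Agent.H86.Decon.Ring

/-!
# A counterexample if Vopenka's principle fails
-/

universe u

namespace Pool.Agent.H86.Decon

open Cardinal FirstOrder

section General

variable {R : Type u} [Ring R]

theorem hasFiltration_self {A : ModClass R} (hA : IsoClosed A) {M : ModuleCat.{u} R} (hM : A M) :
    HasFiltration A M := by
  have hb : (⊥ : Submodule R M).submoduleOf ⊤ = ⊥ := by
    rw [eq_bot_iff]
    intro x hx
    have : (x : M) = 0 := hx
    exact (Submodule.mem_bot R).2 (Subtype.ext this)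
  have e1 : ((⊤ : Submodule R M) ⧸ (⊥ : Submodule R M).submoduleOf ⊤) ≃ₗ[R] M :=
    (Submodule.quotEquivOfEqBot _ hb).trans Submodule.topEquiv
  obtain ⟨F, hF0, hF1⟩ : ∃ F : Ordinal.{u} → Submodule R M, F 0 = ⊥ ∧
      ∀ α, α ≠ 0 → F α = ⊤ :=
    ⟨fun α => if α = 0 then ⊥ else ⊤, if_pos rfl, fun α h => if_neg h⟩
  refine ⟨1, F, hF0, hF1 1 one_ne_zero, ?_, ?_, ?_⟩
  · intro α hα
    obtain rfl : α = 0 := Order.lt_one_iff.1 hα
    rw [hF0]
    exact bot_le
  · intro α hα hlim
    exfalso
    rcases hα.lt_or_eq with h | rfl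
    · exact hlim.ne_bot (Order.lt_one_iff.1 h)
    · have := hlim.add_one_lt hlim.bot_lt
      simp at this
  · intro α hα
    obtain rfl : α = 0 := Order.lt_one_iff.1 hα
    rw [hF0, hF1 (0 + 1) (by simp)]
    exact hA M _ ⟨e1.symm⟩ hM

/-- extensions of filtered modules are filtered -/
theorem hasFiltration_ext {A : ModClass R} (hA : IsoClosed A) {M : Type u} [AddCommGroup M]
    [Module R M] (K : Submodule R M) (hK : HasFiltration A (ModuleCat.of R K))
    (hQ : HasFiltration A (ModuleCat.of R (M ⧸ K))) : HasFiltration A (ModuleCat.of R M) := by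
  classical
  have f1 : Fac (FiltClass A) (⊥ : Submodule R M) K := by
    refine fac_of_surj (isoClosed_filtClass hA) (Z := K) hK LinearMap.id (fun x => ⟨x, rfl⟩) ?_
    intro x
    rw [LinearMap.id_apply, Submodule.mem_bot]
    exact ⟨fun h => by rw [h]; rfl, fun h => Subtype.ext h⟩
  have f2 : Fac (FiltClass A) K (⊤ : Submodule R M) := by
    refine fac_of_surj (isoClosed_filtClass hA) (Z := M ⧸ K) hQ
      (K.mkQ.comp (⊤ : Submodule R M).subtype) ?_ ?_
    · intro z
      obtain ⟨z, rfl⟩ := Submodule.Quotient.mk_surjective _ z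
      exact ⟨⟨z, trivial⟩, rfl⟩
    · intro x
      show Submodule.Quotient.mk _ = 0 ↔ _
      rw [Submodule.Quotient.mk_eq_zero]
      rfl
  refine hasFiltration_filt hA (hasFiltration_of_wellOrdered (M := ModuleCat.of R M)
    {U : Submodule R M | U = ⊥ ∨ U = K ∨ U = ⊤} (Or.inl rfl) (Or.inr (Or.inr rfl)) ?_ ?_ ?_)
  · rintro U (rfl | rfl | rfl) V (rfl | rfl | rfl)
    · exact Or.inl le_rfl
    · exact Or.inl bot_le
    · exact Or.inl bot_le
    · exact Or.inr bot_le
    · exact Or.inl le_rfl
    · exact Or.inl le_top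
    · exact Or.inr bot_le
    · exact Or.inr le_top
    · exact Or.inl le_rfl
  · intro Q hQ' hne
    by_cases h1 : (⊥ : Submodule R M) ∈ Q
    · exact ⟨⊥, h1, fun V _ => bot_le⟩
    · by_cases h2 : K ∈ Q
      · refine ⟨K, h2, fun V hV => ?_⟩
        rcases hQ' hV with rfl | rfl | rfl
        · exact absurd hV h1
        · exact le_rfl
        · exact le_top
      · obtain ⟨V, hV⟩ := hne
        refine ⟨V, hV, fun V' hV' => ?_⟩
        have : ∀ V ∈ Q, V = ⊤ := by
          intro V hV
          rcases hQ' hV with rfl | rfl | rfl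
          · exact absurd hV h1
          · exact absurd hV h2
          · rfl
        rw [this V hV, this V' hV']
  · have hKcase : K = ⊥ ∨ (∀ x ∈ K, ∃ V : Submodule R M, (V = ⊥ ∨ V = K ∨ V = ⊤) ∧ V < K ∧ x ∈ V) ∨
        ∃ V : Submodule R M, (V = ⊥ ∨ V = K ∨ V = ⊤) ∧ V < K ∧
          (∀ W : Submodule R M, (W = ⊥ ∨ W = K ∨ W = ⊤) → W < K → W ≤ V) ∧
          Fac (FiltClass A) V K := by
      by_cases h : K = ⊥
      · exact Or.inl h
      · refine Or.inr (Or.inr ⟨⊥, Or.inl rfl, bot_lt_iff_ne_bot.2 h, ?_, f1⟩)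
        rintro W (rfl | rfl | rfl) hW
        · exact le_rfl
        · exact absurd hW (lt_irrefl _)
        · exact absurd hW not_top_lt
    rintro U (rfl | rfl | rfl)
    · exact Or.inl rfl
    · exact hKcase
    · by_cases h : K = ⊤
      · rw [h] at hKcase
        rw [h]
        exact hKcase
      · refine Or.inr (Or.inr ⟨K, Or.inr (Or.inl rfl), lt_top_iff_ne_top.2 h, ?_, f2⟩)
        rintro W (rfl | rfl | rfl) hW
        · exact bot_le
        · exact le_rfl
        · exact absurd hW (lt_irrefl _)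

end General

section T31

variable {Op : Type u} {U : Type u} [AddCommGroup U] [Module (Rg Op) U]

/-- the map `T₃(U) ⊕ T₁(U) → T₂(U)` -/
noncomputable def psi : T31 U →ₗ[Rg Op] T2 U :=
  mkLin (AddMonoidHom.mk' (fun v : T31 U => ((v.1, v.2.1 - v.2.2.2) : U × U)) (fun v w =>
    Prod.ext rfl (add_sub_add_comm _ _ _ _))) (by
      rintro (_ | o) v
      · rw [T2_none, T31_none]
        exact Prod.ext rfl (sub_zero _)
      · rw [T2_some, T31_some]
        exact Prod.ext rfl (smul_sub _ _ _).symm)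

theorem psi_apply (v : T31 U) : psi (Op := Op) v = ((v.1, v.2.1 - v.2.2.2) : U × U) := rfl

theorem psi_surjective : Function.Surjective (psi (Op := Op) (U := U)) := by
  rintro ⟨a, b⟩
  exact ⟨((a, b, 0, 0) : U × U × U × U), Prod.ext rfl (sub_zero _)⟩

/-- the kernel of `psi` is isomorphic to `T₂(U)` -/
noncomputable def rho : LinearMap.ker (psi (Op := Op) (U := U)) →ₗ[Rg Op] T2 U :=
  mkLin (AddMonoidHom.mk' (fun v => ((v.1.2.2.2, v.1.2.2.1) : U × U)) (fun v w => rfl)) (by
      rintro (_ | o) v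
      · rw [T2_none]
        have e : ((gen none : Rg Op) • v).1 = ((0, v.1.1, v.1.2.1, 0) : U × U × U × U) :=
          T31_none v.1
        have h := v.2
        rw [LinearMap.mem_ker, psi_apply] at h
        have h2 : v.1.2.1 - v.1.2.2.2 = 0 := congrArg Prod.snd h
        refine Prod.ext ?_ ?_
        · show ((gen none : Rg Op) • v).1.2.2.2 = 0
          rw [e]
        · show ((gen none : Rg Op) • v).1.2.2.1 = v.1.2.2.2
          rw [e]
          exact sub_eq_zero.1 h2
      · rw [T2_some]
        have e : ((gen (some o) : Rg Op) • v).1 =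
          (((gen (some o) : Rg Op) • v.1.1, (gen (some o) : Rg Op) • v.1.2.1,
            (gen (some o) : Rg Op) • v.1.2.2.1, (gen (some o) : Rg Op) • v.1.2.2.2) :
              U × U × U × U) := T31_some o v.1
        refine Prod.ext ?_ ?_
        · show ((gen (some o) : Rg Op) • v).1.2.2.2 = _
          rw [e]
          rfl
        · show ((gen (some o) : Rg Op) • v).1.2.2.1 = _
          rw [e]
          rfl)

theorem rho_apply (v : LinearMap.ker (psi (Op := Op) (U := U))) :
    rho v = ((v.1.2.2.2, v.1.2.2.1) : U × U) := rfl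

theorem rho_bijective : Function.Bijective (rho (Op := Op) (U := U)) := by
  constructor
  · rw [injective_iff_map_eq_zero]
    intro v hv
    rw [rho_apply] at hv
    have h := v.2
    rw [LinearMap.mem_ker, psi_apply] at h
    have h1 : v.1.1 = 0 := congrArg Prod.fst h
    have h2 : v.1.2.1 - v.1.2.2.2 = 0 := congrArg Prod.snd h
    have h3 : v.1.2.2.2 = 0 := congrArg Prod.fst hv
    have h4 : v.1.2.2.1 = 0 := congrArg Prod.snd hv
    apply Subtype.ext
    refine Prod.ext h1 (Prod.ext ?_ (Prod.ext h4 h3))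
    rw [sub_eq_zero.1 h2]
    exact h3
  · rintro ⟨a, b⟩
    refine ⟨⟨((0, a, b, a) : U × U × U × U), ?_⟩, rfl⟩
    rw [LinearMap.mem_ker, psi_apply]
    exact Prod.ext rfl (sub_self a)

theorem hasFiltration_T31 {ν : Cardinal.{u}} (hν : #(Rg Op) ≤ ν) :
    HasFiltration (T2Class ν) (ModuleCat.of (Rg Op) (T31 U)) := by
  have h := hasFiltration_T2 (Op := Op) (U := U) hν
  have hA := isoClosed_filtClass (isoClosed_T2Class (Op := Op) ν)
  refine hasFiltration_ext (isoClosed_T2Class ν) (LinearMap.ker (psi (Op := Op) (U := U))) ?_ ?_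
  · exact hA (ModuleCat.of (Rg Op) (T2 U)) _ ⟨(LinearEquiv.ofBijective rho rho_bijective).symm⟩ h
  · exact hA (ModuleCat.of (Rg Op) (T2 U)) _
      ⟨(psi.quotKerEquivOfSurjective psi_surjective).symm⟩ h

/-- the idempotent of `T₃(U) ⊕ T₁(U)` with image `T₁(U)` -/
noncomputable def idem : T31 U →ₗ[Rg Op] T31 U :=
  mkLin (AddMonoidHom.mk' (fun v : T31 U => ((0, 0, 0, v.2.2.2) : U × U × U × U)) (fun v w =>
    Prod.ext (add_zero (0 : U)).symm (Prod.ext (add_zero (0 : U)).symm
      (Prod.ext (add_zero (0 : U)).symm rfl)))) (by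
      rintro (_ | o) v
      · rw [T31_none, T31_none]
        rfl
      · rw [T31_some, T31_some]
        exact Prod.ext (smul_zero _).symm (Prod.ext (smul_zero _).symm
          (Prod.ext (smul_zero _).symm rfl)))

theorem idem_apply (v : T31 U) :
    idem (Op := Op) v = ((0, 0, 0, v.2.2.2) : U × U × U × U) := rfl

/-- the projection of `T₃(U) ⊕ T₁(U)` to `T₁(U)`, if the extra operator acts as zero on `U` -/
noncomputable def proj (hU : ∀ u : U, (gen none : Rg Op) • u = 0) : T31 U →ₗ[Rg Op] U :=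
  mkLin (AddMonoidHom.mk' (fun v : T31 U => v.2.2.2) (fun v w => rfl)) (by
      rintro (_ | o) v
      · rw [T31_none, hU]
        rfl
      · rw [T31_some]
        rfl)

theorem limClass_T31 (hU : ∀ u : U, (gen none : Rg Op) • u = 0) {C : ModClass (Rg Op)}
    (hC : C (ModuleCat.of (Rg Op) (T31 U))) : LimClass C (ModuleCat.of (Rg Op) U) := by
  classical
  refine limClass_of_cocone (ULift.{u} ℕ) (fun _ => ModuleCat.of (Rg Op) (T31 U))
    (fun i j _ => if i = j then LinearMap.id else idem) ?_ (fun _ => hC) _ (fun _ => proj hU)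
    ?_ ?_ ?_
  · refine { map_self := fun {i} x => by simp, map_map := fun {k j i} hij hjk x => ?_ }
    by_cases h1 : i = j
    · subst h1
      simp
    · by_cases h2 : j = k
      · subst h2
        simp
      · have h3 : i ≠ k := by
          rintro rfl
          exact h1 (le_antisymm hij hjk)
        simp only [if_neg h1, if_neg h2, if_neg h3]
        rfl
  · intro i j h x
    by_cases h1 : i = j
    · simp [h1]
    · simp only [if_neg h1]
      rfl
  · intro x
    exact ⟨⟨0⟩, ((0, 0, 0, x) : U × U × U × U), rfl⟩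
  · intro i y hy
    refine ⟨⟨i.down + 1⟩, ?_, ?_⟩
    · show i.down ≤ i.down + 1
      omega
    · have h1 : i ≠ ⟨i.down + 1⟩ := by
        intro h
        have := congrArg ULift.down h
        simp at this
      simp only [if_neg h1]
      have h2 : y.2.2.2 = 0 := hy
      show ((0, 0, 0, y.2.2.2) : U × U × U × U) = 0
      rw [h2]
      rfl

end T31

/-! ### The modules of sequences -/

section Seq

variable {L : FirstOrder.Language.{u, u}}

/-- the group of formal combinations of sequences in a structure -/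
def Wd (L : FirstOrder.Language.{u, u}) (X : Type u) [L.Structure X] : Type u := (ℕ → X) →₀ ℤ

noncomputable instance (X : Type u) [L.Structure X] : AddCommGroup (Wd L X) :=
  inferInstanceAs (AddCommGroup ((ℕ → X) →₀ ℤ))

open Classical in
/-- the operators on `Wd L X` -/
noncomputable def opW (X : Type u) [L.Structure X] : Option (Ops L) → (Wd L X →+ Wd L X)
  | none => 0
  | some (.pl m) => AddMonoidHom.mk' (fun v : (ℕ → X) →₀ ℤ => pull m v)
      (fun v w => Finsupp.mapDomain_add)
  | some (.sl _ φ) => AddMonoidHom.mk' (fun v : (ℕ → X) →₀ ℤ => sel φ v)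
      (fun v w => Finsupp.filter_add)

noncomputable instance instWd (X : Type u) [L.Structure X] : Module (Rg (Ops L)) (Wd L X) :=
  opModule (Wd L X) (opW X)

theorem Wd_gen {X : Type u} [L.Structure X] (o : Option (Ops L)) (v : Wd L X) :
    (gen o : Rg (Ops L)) • v = opW X o v :=
  gen_smul (opW X) o v

theorem Wd_none {X : Type u} [L.Structure X] (v : Wd L X) :
    (gen none : Rg (Ops L)) • v = 0 :=
  gen_smul (opW X) none v

theorem hom_Wd_eq_zero {X Y : Type u} [L.Structure X] [L.Structure Y] (g : Wd L X →+ Wd L Y)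
    (hg : ∀ (o : Ops L) v, g ((gen (some o) : Rg (Ops L)) • v) = (gen (some o) : Rg (Ops L)) • g v)
    {ν : Cardinal.{u}} (hν : #(Set.range g) ≤ ν)
    (hno : Nonempty (L.ElementaryEmbedding X Y) → ν < #X) : g = 0 := by
  by_contra hne
  have hm : ∀ m (v : (ℕ → X) →₀ ℤ), g (pull m v) = pull m (g v) := by
    intro m v
    have := hg (.pl m) v
    rw [Wd_gen, Wd_gen] at this
    exact this
  have hs : ∀ {n : ℕ} (φ : L.Formula (Fin n)) (v : (ℕ → X) →₀ ℤ), g (sel φ v) = sel φ (g v) := by
    intro n φ v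
    have := hg (.sl n φ) v
    rw [Wd_gen, Wd_gen] at this
    exact this
  obtain ⟨h1, h2⟩ := exists_embedding_of_hom (L := L) (X := X) (Y := Y) g hm hs hne
  exact absurd (h2.trans hν) (not_le_of_gt (hno h1))

theorem hom_T31_eq_zero {X Y : Type u} [L.Structure X] [L.Structure Y]
    (g : T31 (Wd L X) →ₗ[Rg (Ops L)] Wd L Y)
    {ν : Cardinal.{u}} (hν : #(Set.range g) ≤ ν)
    (hno : Nonempty (L.ElementaryEmbedding X Y) → ν < #X) (v : T31 (Wd L X)) : g v = 0 := by
  have key : ∀ i : Wd L X →+ T31 (Wd L X), (∀ (o : Ops L) v,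
      i ((gen (some o) : Rg (Ops L)) • v) = (gen (some o) : Rg (Ops L)) • i v) →
      ∀ v, g (i v) = 0 := by
    intro i hi v
    have h := hom_Wd_eq_zero (g.toAddMonoidHom.comp i) (fun o v => by
      show g (i _) = _ • g (i v)
      rw [hi, map_smul]) (ν := ν) ((mk_le_mk_of_subset (by
        rintro _ ⟨v, rfl⟩
        exact ⟨i v, rfl⟩)).trans hν) hno
    exact DFunLike.congr_fun h v
  have k0 := key (AddMonoidHom.mk' (fun v : Wd L X =>
    ((v, 0, 0, 0) : Wd L X × Wd L X × Wd L X × Wd L X)) (fun v w =>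
      Prod.ext rfl (Prod.ext (add_zero (0 : Wd L X)).symm (Prod.ext (add_zero (0 : Wd L X)).symm
        (add_zero (0 : Wd L X)).symm)))) (fun o v => by
      rw [T31_some]
      exact Prod.ext rfl (Prod.ext (smul_zero _).symm (Prod.ext (smul_zero _).symm
        (smul_zero _).symm))) v.1
  have k1 := key (AddMonoidHom.mk' (fun v : Wd L X =>
    ((0, v, 0, 0) : Wd L X × Wd L X × Wd L X × Wd L X)) (fun v w =>
      Prod.ext (add_zero (0 : Wd L X)).symm (Prod.ext rfl (Prod.ext (add_zero (0 : Wd L X)).symm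
        (add_zero (0 : Wd L X)).symm)))) (fun o v => by
      rw [T31_some]
      exact Prod.ext (smul_zero _).symm (Prod.ext rfl (Prod.ext (smul_zero _).symm
        (smul_zero _).symm))) v.2.1
  have k2 := key (AddMonoidHom.mk' (fun v : Wd L X =>
    ((0, 0, v, 0) : Wd L X × Wd L X × Wd L X × Wd L X)) (fun v w =>
      Prod.ext (add_zero (0 : Wd L X)).symm (Prod.ext (add_zero (0 : Wd L X)).symm (Prod.ext rfl
        (add_zero (0 : Wd L X)).symm)))) (fun o v => by
      rw [T31_some]
      exact Prod.ext (smul_zero _).symm (Prod.ext (smul_zero _).symm (Prod.ext rfl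
        (smul_zero _).symm))) v.2.2.1
  have k3 := key (AddMonoidHom.mk' (fun v : Wd L X =>
    ((0, 0, 0, v) : Wd L X × Wd L X × Wd L X × Wd L X)) (fun v w =>
      Prod.ext (add_zero (0 : Wd L X)).symm (Prod.ext (add_zero (0 : Wd L X)).symm
        (Prod.ext (add_zero (0 : Wd L X)).symm rfl)))) (fun o v => by
      rw [T31_some]
      exact Prod.ext (smul_zero _).symm (Prod.ext (smul_zero _).symm (Prod.ext
        (smul_zero _).symm rfl))) v.2.2.2
  have e : v = ((v.1, 0, 0, 0) : Wd L X × Wd L X × Wd L X × Wd L X) +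
      ((0, v.2.1, 0, 0) : Wd L X × Wd L X × Wd L X × Wd L X) +
      ((0, 0, v.2.2.1, 0) : Wd L X × Wd L X × Wd L X × Wd L X) +
      ((0, 0, 0, v.2.2.2) : Wd L X × Wd L X × Wd L X × Wd L X) := by
    refine Prod.ext ?_ (Prod.ext ?_ (Prod.ext ?_ ?_))
    · show v.1 = v.1 + 0 + 0 + 0
      simp
    · show v.2.1 = 0 + v.2.1 + 0 + 0
      simp
    · show v.2.2.1 = 0 + 0 + v.2.2.1 + 0
      simp
    · show v.2.2.2 = 0 + 0 + 0 + v.2.2.2
      simp
  have hsum : ∀ a b c d : T31 (Wd L X), v = a + b + c + d → g a = 0 → g b = 0 → g c = 0 →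
      g d = 0 → g v = 0 := by
    intro a b c d h ha hb hc hd
    rw [h, map_add, map_add, map_add, ha, hb, hc, hd]
    simp
  exact hsum _ _ _ _ e k0 k1 k2 k3

end Seq

end Pool.Agent.H86.Decon
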