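import Mathlib

/-!
# Deconstructible classes of modules and direct limits: definitions

Modules are left modules over a ring `R : Type u` with underlying types in `Type u`; a class of
modules is a predicate on `ModuleCat.{u} R`.
-/

universe u

namespace Pool.Agent.H86.Decon

open CategoryTheory Cardinal

/-- A class of `R`-modules. -/
abbrev ModClass (R : Type u) [Ring R] := ModuleCat.{u} R → Prop

variable {R : Type u} [Ring R]

/-- The class `C` is closed under isomorphism. -/
def IsoClosed (C : ModClass R) : Prop :=
  ∀ M N : ModuleCat.{u} R, Nonempty (M ≃ₗ[R] N) → C M → C N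

/-- `M` has an `A`-filtration: there are an ordinal `σ` and submodules `F α`, `α ≤ σ`, with
`F 0 = 0`, `F σ = M`, `F α ⊆ F (α + 1)`, `F α = ⋃_{β < α} F β` for limit `α`, such that the module
`F (α + 1) / F α` belongs to `A` for every `α < σ`. (The values `F α` with `α > σ` are not used.) -/
def HasFiltration (A : ModClass R) (M : ModuleCat.{u} R) : Prop :=
  ∃ (σ : Ordinal.{u}) (F : Ordinal.{u} → Submodule R M),
    F 0 = ⊥ ∧ F σ = ⊤ ∧ (∀ α < σ, F α ≤ F (α + 1)) ∧
    (∀ α ≤ σ, Order.IsSuccLimit α → ∀ x, x ∈ F α ↔ ∃ β < α, x ∈ F β) ∧
    ∀ α < σ, A (ModuleCat.of R (F (α + 1) ⧸ (F α).submoduleOf (F (α + 1))))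

/-- `M` is `<κ`-presented: it is the cokernel of a homomorphism between free modules with bases
`Z`, `G` of cardinality less than `κ`. -/
def IsPresented (κ : Cardinal.{u}) (M : ModuleCat.{u} R) : Prop :=
  ∃ (G Z : Type u) (p : (G →₀ R) →ₗ[R] M) (q : (Z →₀ R) →ₗ[R] (G →₀ R)),
    #G < κ ∧ #Z < κ ∧ Function.Surjective p ∧ LinearMap.range q = LinearMap.ker p

/-- The class `C` is `κ`-deconstructible: every module in `C` has a filtration with all factors
isomorphic to (so, for isomorphism closed `C`, equal to) `<κ`-presented modules in `C`. -/
def DeconstructibleAt (κ : Cardinal.{u}) (C : ModClass R) : Prop :=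
  ∀ M, C M → HasFiltration (fun N => C N ∧ IsPresented κ N) M

/-- The class `C` is deconstructible: `κ`-deconstructible for some infinite regular `κ`. -/
def Deconstructible (C : ModClass R) : Prop :=
  ∃ κ : Cardinal.{u}, κ.IsRegular ∧ DeconstructibleAt κ C

/-- The class of all modules isomorphic to the direct limit of a direct system, indexed by a
directed partially ordered set, of modules from `C`. -/
def LimClass (C : ModClass R) : ModClass R := fun N =>
  ∃ (I : Type u) (_ : PartialOrder I) (_ : IsDirected I (· ≤ ·)) (_ : Nonempty I)
    (_ : DecidableEq I) (S : I → ModuleCat.{u} R) (f : ∀ i j, i ≤ j → (S i →ₗ[R] S j)),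
    DirectedSystem (fun i => S i) (fun i j h => f i j h) ∧ (∀ i, C (S i)) ∧
      Nonempty (N ≃ₗ[R] Module.DirectLimit (fun i => S i) f)

/-- Vopěnka's principle: every family, indexed by all ordinals, of structures of the same
first-order language has two members with different indices and an elementary embedding of the
first into the second.  (If two members of the family are isomorphic this is clear, otherwise the
family is a proper class of pairwise non-isomorphic structures.) -/
def Vopenka : Prop :=
  ∀ (L : FirstOrder.Language.{u, u}) (X : Ordinal.{u} → Type u) [∀ α, L.Structure (X α)],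
    ∃ α β, α ≠ β ∧ Nonempty (L.ElementaryEmbedding (X α) (X β))

end Pool.Agent.H86.Decon
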