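import Pool.Agent.H86.Decon.Defs

/-!
# Building filtrations by transfinite recursion
-/

universe u

namespace Pool.Agent.H86.Decon

open CategoryTheory Cardinal

variable {R : Type u} [Ring R]

/-- the factor module `P' / P` belongs to `A` -/
abbrev Fac (A : ModClass R) {M : Type u} [AddCommGroup M] [Module R M] (P P' : Submodule R M) :
    Prop := A (ModuleCat.of R (P' ⧸ P.submoduleOf P'))

theorem fac_of_surj {A : ModClass R} (hA : IsoClosed A) {M : Type u} [AddCommGroup M] [Module R M]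
    {P P' : Submodule R M} {Z : Type u} [AddCommGroup Z] [Module R Z] (hZ : A (ModuleCat.of R Z))
    (φ : P' →ₗ[R] Z) (hs : Function.Surjective φ) (hk : ∀ x : P', φ x = 0 ↔ (x : M) ∈ P) :
    Fac A P P' := by
  have e : LinearMap.ker φ = P.submoduleOf P' := by
    ext x
    rw [LinearMap.mem_ker, hk]
    rfl
  refine hA (ModuleCat.of R Z) _ ⟨?_⟩ hZ
  exact ((Submodule.quotEquivOfEq _ _ e).symm.trans (φ.quotKerEquivOfSurjective hs)).symm

/-- **Transfinite construction principle.** -/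
theorem hasFiltration_of_step {A : ModClass R} {M : ModuleCat.{u} R} {G : Type u}
    [CompleteLattice G] (P : Set G) (N : G → Submodule R M) (hmono : Monotone N) (g₀ : G)
    (hg₀ : g₀ ∈ P) (hN₀ : N g₀ = ⊥) (hNtop : N ⊤ = ⊤)
    (hchain : ∀ c ⊆ P, IsChain (· ≤ ·) c → c.Nonempty → sSup c ∈ P)
    (hN : ∀ c ⊆ P, IsChain (· ≤ ·) c → c.Nonempty → ∀ x, x ∈ N (sSup c) → ∃ g ∈ c, x ∈ N g)
    (hs : ∀ g ∈ P, g ≠ ⊤ → ∃ g' ∈ P, g < g' ∧ Fac A (N g) (N g')) : HasFiltration A M := by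
  classical
  -- the step function
  have hs' : ∀ g : G, ∃ g', g ≤ g' ∧ (g ∈ P → g' ∈ P) ∧
      (g ∈ P → g ≠ ⊤ → g < g' ∧ Fac A (N g) (N g')) := by
    intro g
    by_cases h : g ∈ P ∧ g ≠ ⊤
    · obtain ⟨g', h1, h2, h3⟩ := hs g h.1 h.2
      exact ⟨g', h2.le, fun _ => h1, fun _ _ => ⟨h2, h3⟩⟩
    · exact ⟨g, le_rfl, fun h => h, fun h1 h2 => (h ⟨h1, h2⟩).elim⟩
  choose nxt hnxt1 hnxt2 hnxt3 using hs'
  let F : Ordinal.{u} → G := WellFounded.fix Ordinal.lt_wf
    (fun α f => g₀ ⊔ ⨆ β : Set.Iio α, nxt (f β.1 β.2))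
  have hF : ∀ α, F α = g₀ ⊔ ⨆ β : Set.Iio α, nxt (F β.1) := fun α =>
    WellFounded.fix_eq Ordinal.lt_wf _ α
  have hFle : ∀ α β, β < α → nxt (F β) ≤ F α := by
    intro α β h
    rw [hF α]
    exact le_sup_of_le_right (le_iSup (fun β : Set.Iio α => nxt (F β.1)) ⟨β, h⟩)
  have hFmono : Monotone F := by
    intro α β h
    rcases h.eq_or_lt with rfl | h
    · exact le_rfl
    · exact (hnxt1 _).trans (hFle β α h)
  have hF0 : F 0 = g₀ := by
    rw [hF 0]
    have : (⨆ β : Set.Iio (0 : Ordinal.{u}), nxt (F β.1)) = ⊥ := by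
      rw [iSup_eq_bot]
      rintro ⟨β, hβ⟩
      exact absurd hβ (not_lt_of_ge (zero_le (a := β)))
    rw [this, sup_bot_eq]
  have hg₀le : ∀ α, g₀ ≤ F α := by
    intro α
    rw [hF α]
    exact le_sup_left
  have hFsucc : ∀ α, F (α + 1) = nxt (F α) := by
    intro α
    apply le_antisymm
    · rw [hF (α + 1)]
      refine sup_le ((hg₀le α).trans (hnxt1 _)) (iSup_le ?_)
      rintro ⟨β, hβ⟩
      rcases (Order.lt_add_one_iff.1 (Set.mem_Iio.1 hβ)).eq_or_lt with rfl | h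
      · exact le_rfl
      · exact (hFle α β h).trans (hnxt1 _)
    · exact hFle _ _ (Order.lt_add_one_iff.2 le_rfl)
  have hFlim : ∀ α, Order.IsSuccLimit α → F α = sSup (F '' Set.Iio α) := by
    intro α hα
    apply le_antisymm
    · rw [hF α]
      refine sup_le ?_ (iSup_le ?_)
      · refine (hg₀le 0).trans (le_sSup ⟨0, ?_, rfl⟩)
        exact hα.bot_lt
      · rintro ⟨β, hβ⟩
        rw [← hFsucc]
        exact le_sSup ⟨β + 1, hα.add_one_lt hβ, rfl⟩
    · apply sSup_le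
      rintro _ ⟨β, hβ, rfl⟩
      exact hFmono (le_of_lt hβ)
  have hch : ∀ α, IsChain (· ≤ ·) (F '' Set.Iio α) := by
    rintro α _ ⟨β, _, rfl⟩ _ ⟨γ, _, rfl⟩ _
    rcases le_total β γ with h | h
    · exact Or.inl (hFmono h)
    · exact Or.inr (hFmono h)
  have hP : ∀ α, F α ∈ P := by
    intro α
    induction α using Ordinal.limitRecOn with
    | zero => rw [hF0]; exact hg₀
    | add_one α ih =>
      rw [hFsucc α]
      exact hnxt2 _ ih
    | limit α hα ih =>
      rw [hFlim α hα]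
      refine hchain _ ?_ (hch α) ⟨F 0, 0, hα.bot_lt, rfl⟩
      rintro _ ⟨β, hβ, rfl⟩
      exact ih β hβ
  -- the top is reached
  have htop : ∃ σ, F σ = ⊤ := by
    by_contra hcon
    push Not at hcon
    refine not_injective_of_ordinal F ?_
    intro α β h
    by_contra hne
    rcases lt_or_gt_of_ne hne with h1 | h1
    · have := (hnxt3 (F α) (hP α) (hcon α)).1.trans_le (hFle β α h1)
      exact absurd h this.ne
    · have := (hnxt3 (F β) (hP β) (hcon β)).1.trans_le (hFle α β h1)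
      exact absurd h this.ne'
  obtain ⟨σ, hσ, hmin⟩ := WellFounded.has_min (wellFounded_lt (α := Ordinal.{u}))
    {σ | F σ = ⊤} htop
  refine ⟨σ, fun α => N (F α), ?_, ?_, ?_, ?_, ?_⟩
  · show N (F 0) = ⊥
    rw [hF0, hN₀]
  · show N (F σ) = ⊤
    rw [show F σ = ⊤ from hσ, hNtop]
  · intro α _
    exact hmono (hFmono (Order.lt_add_one_iff.2 le_rfl).le)
  · intro α _ hα x
    constructor
    · intro hx
      have hx' : x ∈ N (sSup (F '' Set.Iio α)) := by rw [← hFlim α hα]; exact hx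
      obtain ⟨_, ⟨β, hβ, rfl⟩, h2⟩ := hN _ (by
        rintro _ ⟨β, _, rfl⟩
        exact hP β) (hch α) ⟨F 0, 0, hα.bot_lt, rfl⟩ x hx'
      exact ⟨β, hβ, h2⟩
    · rintro ⟨β, hβ, hx⟩
      exact hmono (hFmono hβ.le) hx
  · intro α hα
    have hne : F α ≠ ⊤ := fun h => hmin α h hα
    have h1 := (hnxt3 (F α) (hP α) hne).2
    show A (ModuleCat.of R (N (F (α + 1)) ⧸ (N (F α)).submoduleOf (N (F (α + 1)))))
    rw [hFsucc α]
    exact h1

end Pool.Agent.H86.Decon
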