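import Pool.Agent.H86.Decon.Hill

/-!
# The class of filtered modules is closed under filtrations
-/

universe u

namespace Pool.Agent.H86.Decon

open CategoryTheory Cardinal

variable {R : Type u} [Ring R]

/-- a filtration from a well-ordered set of submodules -/
theorem hasFiltration_of_wellOrdered {A : ModClass R} {M : ModuleCat.{u} R}
    (P : Set (Submodule R M)) (hbot : ⊥ ∈ P) (htop : ⊤ ∈ P)
    (htot : ∀ U ∈ P, ∀ V ∈ P, U ≤ V ∨ V ≤ U)
    (hwf : ∀ Q ⊆ P, Q.Nonempty → ∃ U ∈ Q, ∀ V ∈ Q, U ≤ V)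
    (hcase : ∀ U ∈ P, U = ⊥ ∨ (∀ x ∈ U, ∃ V ∈ P, V < U ∧ x ∈ V) ∨
      ∃ V ∈ P, V < U ∧ (∀ W ∈ P, W < U → W ≤ V) ∧ Fac A V U) : HasFiltration A M := by
  have hchain : ∀ c ⊆ P, c.Nonempty → sSup c ∈ P ∧ ∀ x ∈ sSup c, ∃ V ∈ c, x ∈ V := by
    intro c hc hne
    have hdir : DirectedOn (· ≤ ·) c := by
      intro U hU V hV
      rcases htot U (hc hU) V (hc hV) with h | h
      · exact ⟨V, hV, h, le_rfl⟩
      · exact ⟨U, hU, le_rfl, h⟩
    refine ⟨?_, fun x hx => (Submodule.mem_sSup_of_directed hne hdir).1 hx⟩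
    obtain ⟨U, ⟨hUP, hUc⟩, hmin⟩ := hwf {U | U ∈ P ∧ ∀ V ∈ c, V ≤ U} (fun U h => h.1)
      ⟨⊤, htop, fun V _ => le_top⟩
    have hle : sSup c ≤ U := sSup_le hUc
    have hkey : ∀ V ∈ P, V < U → ∃ W ∈ c, V ≤ W ∧ ¬ W ≤ V := by
      intro V hV hlt
      by_contra hcon
      push Not at hcon
      refine absurd (hmin V ⟨hV, fun W hW => ?_⟩) (not_le_of_gt hlt)
      rcases htot V hV W (hc hW) with h | h
      · exact hcon W hW h
      · exact h
    have : sSup c = U := by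
      apply le_antisymm hle
      rcases hcase U hUP with rfl | h | ⟨V, hV, h1, h2, -⟩
      · exact bot_le
      · intro x hx
        obtain ⟨V, hV, h1, h2⟩ := h x hx
        obtain ⟨W, hW, h3, -⟩ := hkey V hV h1
        exact le_sSup hW (h3 h2)
      · obtain ⟨W, hW, h3, h4⟩ := hkey V hV h1
        by_cases h5 : W = U
        · rw [← h5]
          exact le_sSup hW
        · exact absurd (h2 W (hc hW) (lt_of_le_of_ne (hUc W hW) h5)) h4
    rw [this]
    exact hUP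
  refine hasFiltration_of_step P id monotone_id ⊥ hbot rfl rfl
    (fun c h1 _ h3 => (hchain c h1 h3).1) (fun c h1 _ h3 => (hchain c h1 h3).2) ?_
  intro U hU hne
  obtain ⟨W, ⟨hW, hUW⟩, hmin⟩ := hwf {W | W ∈ P ∧ U < W} (fun W h => h.1)
    ⟨⊤, htop, lt_top_iff_ne_top.2 hne⟩
  have hkey : ∀ V ∈ P, V < W → V ≤ U := by
    intro V hV hlt
    rcases htot U hU V hV with h | h
    · rcases h.eq_or_lt with h | h
      · exact h.ge
      · exact absurd (hmin V ⟨hV, h⟩) (not_le_of_gt hlt)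
    · exact h
  refine ⟨W, hW, hUW, ?_⟩
  rcases hcase W hW with rfl | h | ⟨V, hV, h1, h2, h3⟩
  · exact absurd hUW not_lt_bot
  · exfalso
    refine absurd (show W ≤ U from fun x hx => ?_) (not_le_of_gt hUW)
    obtain ⟨V, hV, h1, h2⟩ := h x hx
    exact hkey V hV h1 h2
  · have : U = V := le_antisymm (h2 U hU hUW) (hkey V hV h1)
    rw [this]
    exact h3

/-- the modules with an `A`-filtration -/
def FiltClass (A : ModClass R) : ModClass R := fun M => HasFiltration A M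

/-- a module filtered by filtered modules is filtered -/
theorem hasFiltration_filt {A : ModClass R} (hA : IsoClosed A) {M : ModuleCat.{u} R}
    (hM : HasFiltration (FiltClass A) M) : HasFiltration A M := by
  obtain ⟨σ, F, h1, h2, h3, h4, h5⟩ := hM
  have hmono : ∀ {α β : Ordinal.{u}}, α ≤ β → β ≤ σ → F α ≤ F β :=
    fun h hβ => filtration_mono h3 h4 h hβ
  have key : ∀ α ≤ σ, ∃ (τ : Ordinal.{u}) (U : Ordinal.{u} → Submodule R M), U 0 = F α ∧
      (α < σ → U τ = F (α + 1)) ∧ (∀ β < τ, U β ≤ U (β + 1)) ∧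
      (∀ β ≤ τ, Order.IsSuccLimit β → ∀ x, x ∈ U β ↔ ∃ γ < β, x ∈ U γ) ∧
      ∀ β < τ, Fac A (U β) (U (β + 1)) := by
    intro α hα
    rcases hα.eq_or_lt with rfl | hα
    · refine ⟨0, fun _ => F α, rfl, fun h => absurd h (lt_irrefl _),
        fun β h => absurd h (not_lt_of_ge (zero_le (a := β))), ?_,
        fun β h => absurd h (not_lt_of_ge (zero_le (a := β)))⟩
      intro β hβ hlim
      exact absurd (le_antisymm hβ (zero_le (a := β))) hlim.ne_bot
    · obtain ⟨τ, E, g1, g2, g3, g4, g5⟩ := h5 α hα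
      let mk : F (α + 1) →ₗ[R] (F (α + 1) ⧸ (F α).submoduleOf (F (α + 1))) :=
        ((F α).submoduleOf (F (α + 1))).mkQ
      let U : Ordinal.{u} → Submodule R M := fun β =>
        ((E β).comap mk).map (F (α + 1)).subtype
      have hU : ∀ β x, x ∈ U β ↔ ∃ h : x ∈ F (α + 1), mk ⟨x, h⟩ ∈ E β := by
        intro β x
        constructor
        · rintro ⟨⟨y, hy⟩, h, rfl⟩
          exact ⟨hy, h⟩
        · rintro ⟨h, h'⟩
          exact ⟨⟨x, h⟩, h', rfl⟩
      have hmk0 : ∀ x (h : x ∈ F (α + 1)), mk ⟨x, h⟩ = 0 ↔ x ∈ F α := by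
        intro x h
        show Submodule.Quotient.mk _ = 0 ↔ _
        rw [Submodule.Quotient.mk_eq_zero]
        rfl
      refine ⟨τ, U, ?_, ?_, ?_, ?_, ?_⟩
      · ext x
        rw [hU, g1]
        constructor
        · rintro ⟨h, h'⟩
          exact (hmk0 x h).1 ((Submodule.mem_bot R).1 h')
        · intro h
          exact ⟨h3 α hα h, (Submodule.mem_bot R).2 ((hmk0 x _).2 h)⟩
      · intro _
        ext x
        rw [hU, g2]
        exact ⟨fun h => h.1, fun h => ⟨h, Submodule.mem_top⟩⟩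
      · intro β hβ x hx
        obtain ⟨h, h'⟩ := (hU _ _).1 hx
        exact (hU _ _).2 ⟨h, g3 β hβ h'⟩
      · intro β hβ hlim x
        rw [hU]
        constructor
        · rintro ⟨h, h'⟩
          obtain ⟨γ, hγ, h6⟩ := (g4 β hβ hlim _).1 h'
          exact ⟨γ, hγ, (hU _ _).2 ⟨h, h6⟩⟩
        · rintro ⟨γ, hγ, h6⟩
          obtain ⟨h, h'⟩ := (hU _ _).1 h6
          exact ⟨h, (g4 β hβ hlim _).2 ⟨γ, hγ, h'⟩⟩
      · intro β hβ
        refine fac_of_surj hA (g5 β hβ)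
          (((E β).submoduleOf (E (β + 1))).mkQ.comp
            ((mk.comp (Submodule.inclusion (fun x hx => ((hU _ _).1 hx).choose) :
              U (β + 1) →ₗ[R] F (α + 1))).codRestrict (E (β + 1))
              (fun z => ((hU _ _).1 z.2).choose_spec))) ?_ ?_
        · intro z
          obtain ⟨⟨z, hz⟩, rfl⟩ := Submodule.Quotient.mk_surjective _ z
          obtain ⟨⟨y, hy⟩, rfl⟩ := Submodule.Quotient.mk_surjective _ z
          exact ⟨⟨y, (hU _ _).2 ⟨hy, hz⟩⟩, rfl⟩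
        · intro z
          show Submodule.Quotient.mk _ = 0 ↔ _
          rw [Submodule.Quotient.mk_eq_zero, hU]
          constructor
          · intro h
            exact ⟨((hU _ _).1 z.2).choose, h⟩
          · rintro ⟨h, h'⟩
            exact h'
  choose! τ U k1 k2 k3 k4 k5 using key
  have hUmono : ∀ α ≤ σ, ∀ {β β' : Ordinal.{u}}, β ≤ β' → β' ≤ τ α → U α β ≤ U α β' :=
    fun α hα β β' h hβ => filtration_mono (k3 α hα) (k4 α hα) h hβ
  have hlex : ∀ {α β α' β' : Ordinal.{u}}, α' ≤ σ → β ≤ τ α → β' ≤ τ α' →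
      (α < α' ∨ (α = α' ∧ β ≤ β')) → U α β ≤ U α' β' := by
    rintro α β α' β' hα' hβ hβ' (h | ⟨rfl, h⟩)
    · have hα : α < σ := h.trans_le hα'
      calc U α β ≤ U α (τ α) := hUmono α hα.le hβ le_rfl
        _ = F (α + 1) := k2 α hα.le hα
        _ ≤ F α' := hmono (Order.add_one_le_iff.2 h) hα'
        _ = U α' 0 := (k1 α' hα').symm
        _ ≤ U α' β' := hUmono α' hα' (zero_le (a := β')) hβ'
    · exact hUmono α hα' h hβ'
  let P : Set (Submodule R M) := {V | ∃ α ≤ σ, ∃ β ≤ τ α, U α β = V}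
  have hwf : ∀ Q ⊆ P, Q.Nonempty → ∃ α ≤ σ, ∃ β ≤ τ α, U α β ∈ Q ∧
      ∀ α' ≤ σ, ∀ β' ≤ τ α', U α' β' ∈ Q → (α < α' ∨ (α = α' ∧ β ≤ β')) := by
    intro Q hQ ⟨V, hV⟩
    obtain ⟨a, ha, b, hb, rfl⟩ := hQ hV
    obtain ⟨α, ⟨h6, b', hb', h7⟩, hmin⟩ := WellFounded.has_min
      (wellFounded_lt (α := Ordinal.{u})) {α | α ≤ σ ∧ ∃ β ≤ τ α, U α β ∈ Q} ⟨a, ha, b, hb, hV⟩
    obtain ⟨β, ⟨h8, h9⟩, hmin'⟩ := WellFounded.has_min
      (wellFounded_lt (α := Ordinal.{u})) {β | β ≤ τ α ∧ U α β ∈ Q} ⟨b', hb', h7⟩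
    refine ⟨α, h6, β, h8, h9, fun α' hα' β' hβ' h10 => ?_⟩
    rcases (le_of_not_gt (hmin α' ⟨hα', β', hβ', h10⟩)).eq_or_lt with rfl | h
    · exact Or.inr ⟨rfl, le_of_not_gt (hmin' β' ⟨hβ', h10⟩)⟩
    · exact Or.inl h
  refine hasFiltration_of_wellOrdered P ?_ ?_ ?_ ?_ ?_
  · exact ⟨0, zero_le (a := σ), 0, zero_le (a := τ 0), by rw [k1 0 (zero_le (a := σ)), h1]⟩
  · exact ⟨σ, le_rfl, 0, zero_le (a := τ σ), by rw [k1 σ le_rfl, h2]⟩
  · rintro _ ⟨α, hα, β, hβ, rfl⟩ _ ⟨α', hα', β', hβ', rfl⟩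
    rcases lt_trichotomy α α' with h | rfl | h
    · exact Or.inl (hlex hα' hβ hβ' (Or.inl h))
    · rcases le_total β β' with h' | h'
      · exact Or.inl (hlex hα' hβ hβ' (Or.inr ⟨rfl, h'⟩))
      · exact Or.inr (hlex hα' hβ' hβ (Or.inr ⟨rfl, h'⟩))
    · exact Or.inr (hlex hα hβ' hβ (Or.inl h))
  · intro Q hQ hne
    obtain ⟨α, hα, β, hβ, h6, h7⟩ := hwf Q hQ hne
    refine ⟨_, h6, fun V hV => ?_⟩
    obtain ⟨α', hα', β', hβ', rfl⟩ := hQ hV
    exact hlex hα' hβ hβ' (h7 α' hα' β' hβ' hV)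
  · rintro V hV
    obtain ⟨α, hα, β, hβ, h6, h7⟩ := hwf {V} (fun W hW => by rw [Set.mem_singleton_iff.1 hW]; exact hV)
      ⟨V, rfl⟩
    obtain rfl : U α β = V := h6
    have hlt : ∀ α' β', α' ≤ σ → β' ≤ τ α' → (α' < α ∨ (α' = α ∧ β' < β)) →
        U α' β' < U α β := by
      intro α' β' hα' hβ' h
      refine lt_of_le_of_ne (hlex hα hβ' hβ (h.imp_right fun h => ⟨h.1, h.2.le⟩)) ?_
      intro he
      rcases h7 α' hα' β' hβ' he with h8 | ⟨h8, h9⟩
      · rcases h with h | ⟨h, -⟩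
        · exact absurd h8 (not_lt_of_gt h)
        · exact absurd h8 (h ▸ lt_irrefl _)
      · rcases h with h | ⟨-, h⟩
        · exact absurd h8 h.ne'
        · exact absurd h9 (not_le_of_gt h)
    rcases Ordinal.zero_or_succ_or_isSuccLimit β with rfl | ⟨β', rfl⟩ | hlim
    · rw [k1 α hα]
      rcases Ordinal.zero_or_succ_or_isSuccLimit α with rfl | ⟨α', rfl⟩ | hlim
      · exact Or.inl h1
      · exfalso
        have hα' : α' < σ := Order.add_one_le_iff.1 hα
        have := hlt α' (τ α') hα'.le le_rfl (Or.inl (Order.lt_add_one_iff.2 le_rfl))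
        rw [k2 α' hα'.le hα', k1 _ hα] at this
        exact lt_irrefl _ this
      · refine Or.inr (Or.inl fun x hx => ?_)
        obtain ⟨γ, hγ, h8⟩ := (h4 α hα hlim x).1 hx
        have h9 := hlt γ 0 (hγ.le.trans hα) (zero_le (a := τ γ)) (Or.inl hγ)
        rw [k1 α hα] at h9
        refine ⟨U γ 0, ⟨γ, hγ.le.trans hα, 0, zero_le (a := τ γ), rfl⟩, h9, ?_⟩
        rw [k1 γ (hγ.le.trans hα)]
        exact h8
    · have hβ' : β' < τ α := Order.add_one_le_iff.1 hβ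
      refine Or.inr (Or.inr ⟨U α β', ⟨α, hα, β', hβ'.le, rfl⟩,
        hlt α β' hα hβ'.le (Or.inr ⟨rfl, Order.lt_add_one_iff.2 le_rfl⟩), ?_, k5 α hα β' hβ'⟩)
      rintro _ ⟨a, ha, b, hb, rfl⟩ hW
      by_contra hcon
      refine absurd (hlex ha hβ hb ?_) (not_le_of_gt hW)
      rcases lt_trichotomy α a with h | rfl | h
      · exact Or.inl h
      · refine Or.inr ⟨rfl, Order.add_one_le_iff.2 ?_⟩
        by_contra hle
        exact hcon (hlex hα hb hβ'.le (Or.inr ⟨rfl, le_of_not_gt hle⟩))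
      · exact absurd (hlex hα hb hβ'.le (Or.inl h)) hcon
    · refine Or.inr (Or.inl fun x hx => ?_)
      obtain ⟨γ, hγ, h8⟩ := (k4 α hα β hβ hlim x).1 hx
      exact ⟨U α γ, ⟨α, hα, γ, hγ.le.trans hβ, rfl⟩,
        hlt α γ hα (hγ.le.trans hβ) (Or.inr ⟨rfl, hγ⟩), h8⟩

theorem isoClosed_filtClass {A : ModClass R} (hA : IsoClosed A) : IsoClosed (FiltClass A) := by
  rintro M N ⟨e⟩ ⟨σ, F, h1, h2, h3, h4, h5⟩
  refine ⟨σ, fun α => (F α).comap e.symm.toLinearMap, ?_, ?_, ?_, ?_, ?_⟩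
  · show (F 0).comap e.symm.toLinearMap = ⊥
    rw [h1, eq_bot_iff]
    intro x hx
    have : e.symm x = 0 := hx
    simpa using this
  · show (F σ).comap e.symm.toLinearMap = ⊤
    rw [h2]
    exact Submodule.comap_top _
  · intro α hα
    exact Submodule.comap_mono (h3 α hα)
  · intro α hα hlim x
    exact h4 α hα hlim (e.symm x)
  · intro α hα
    refine fac_of_surj (P := (F α).comap e.symm.toLinearMap)
      (P' := (F (α + 1)).comap e.symm.toLinearMap) hA (h5 α hα)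
      (((F α).submoduleOf (F (α + 1))).mkQ.comp
        ((e.symm.toLinearMap.comp ((F (α + 1)).comap e.symm.toLinearMap).subtype).codRestrict
          (F (α + 1)) (fun z => z.2))) ?_ ?_
    · intro z
      obtain ⟨⟨z, hz⟩, rfl⟩ := Submodule.Quotient.mk_surjective _ z
      refine ⟨⟨e z, by simpa using hz⟩, ?_⟩
      show Submodule.Quotient.mk _ = Submodule.Quotient.mk _
      congr 1
      apply Subtype.ext
      exact e.symm_apply_apply z
    · intro z
      show Submodule.Quotient.mk _ = 0 ↔ _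
      rw [Submodule.Quotient.mk_eq_zero]
      rfl

theorem deconstructible_filtClass {T : Type u} (A : T → ModuleCat.{u} R) :
    Deconstructible (FiltClass fun M : ModuleCat.{u} R => ∃ t, Nonempty (M ≃ₗ[R] A t)) := by
  let ν : Cardinal.{u} := ℵ₀ + #R + Cardinal.sum (fun t => #(A t))
  have h1 : ℵ₀ ≤ ν := by
    dsimp only [ν]
    exact le_self_add.trans le_self_add
  have h2 : #R ≤ ν := by
    dsimp only [ν]
    exact le_add_self.trans le_self_add
  have h3 : ∀ t, #(A t) ≤ ν := by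
    intro t
    dsimp only [ν]
    exact (Cardinal.le_sum (fun t => #(A t)) t).trans le_add_self
  refine ⟨Order.succ ν, isRegular_succ h1, ?_⟩
  intro N hN
  refine hN.mono ?_
  rintro M ⟨t, ⟨e⟩⟩
  refine ⟨?_, isPresented_of_card h1 h2 (Order.lt_succ ν) M ?_⟩
  · have hb : (⊥ : Submodule R M).submoduleOf ⊤ = ⊥ := by
      rw [eq_bot_iff]
      intro x hx
      have : (x : M) = 0 := hx
      exact (Submodule.mem_bot R).2 (Subtype.ext this)
    have e1 : ((⊤ : Submodule R M) ⧸ (⊥ : Submodule R M).submoduleOf ⊤) ≃ₗ[R] M :=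
      (Submodule.quotEquivOfEqBot _ hb).trans Submodule.topEquiv
    obtain ⟨F, hF0, hF1⟩ : ∃ F : Ordinal.{u} → Submodule R M, F 0 = ⊥ ∧
        ∀ α, α ≠ 0 → F α = ⊤ :=
      ⟨fun α => if α = 0 then ⊥ else ⊤, if_pos rfl, fun α h => if_neg h⟩
    refine ⟨1, F, hF0, hF1 1 one_ne_zero, ?_, ?_, ?_⟩
    · intro α hα
      obtain rfl : α = 0 := Order.lt_one_iff.1 hα
      rw [hF0]
      exact bot_le
    · intro α hα hlim
      exfalso
      rcases hα.lt_or_eq with h | rfl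
      · exact hlim.ne_bot (Order.lt_one_iff.1 h)
      · have := hlim.add_one_lt hlim.bot_lt
        simp at this
    · intro α hα
      obtain rfl : α = 0 := Order.lt_one_iff.1 hα
      rw [hF0, hF1 (0 + 1) (by simp)]
      exact ⟨t, ⟨e1.trans e⟩⟩
  · exact (mk_le_of_injective e.injective).trans (h3 t)

end Pool.Agent.H86.Decon
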