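import Pool.Agent.H86.Decon.Counter

/-!
# The equivalence with Vopenka's principle
-/

universe u

namespace Pool.Agent.H86.Decon

open Cardinal FirstOrder

section

variable {L : FirstOrder.Language.{u, u}} (X : Ordinal.{u} → Type u) [∀ α, L.Structure (X α)]

theorem exists_large (hX : ∀ α β, α ≠ β → ¬ Nonempty (L.ElementaryEmbedding (X α) (X β)))
    (ν : Cardinal.{u}) : ∃ α, ν < #(X α) := by
  by_contra hcon
  push Not at hcon
  have h1 : ∀ α, ∃ i : X α → ν.out, Function.Injective i := by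
    intro α
    have : #(X α) ≤ #ν.out := by rw [mk_out]; exact hcon α
    obtain ⟨i⟩ := this
    exact ⟨i, i.injective⟩
  choose i hi using h1
  let e : ∀ α, X α ≃ Set.range (i α) := fun α => Equiv.ofInjective _ (hi α)
  let code : Ordinal.{u} → Σ Y : Set ν.out, L.Structure Y := fun α =>
    ⟨Set.range (i α), Equiv.inducedStructure (e α)⟩
  refine not_injective_of_ordinal code ?_
  intro α β hab
  by_contra hne
  apply hX α β hne
  have key : ∀ (p q : Σ Y : Set ν.out, L.Structure Y), p = q →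
      Nonempty (@Language.Equiv L p.1 q.1 p.2 q.2) := by
    rintro p q rfl
    exact ⟨@Language.Equiv.refl L p.1 p.2⟩
  obtain ⟨f⟩ := key _ _ hab
  let _ : L.Structure (Set.range (i α)) := Equiv.inducedStructure (e α)
  let _ : L.Structure (Set.range (i β)) := Equiv.inducedStructure (e β)
  let f' : L.Equiv (Set.range (i α)) (Set.range (i β)) := f
  let g : L.Equiv (X α) (X β) :=
    ((Equiv.inducedStructureEquiv (L := L) (e β)).symm.comp f').comp
      (Equiv.inducedStructureEquiv (L := L) (e α))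
  exact ⟨g.toElementaryEmbedding⟩

/-- the class of the counterexample -/
def CC (ν : Cardinal.{u}) : ModClass (Rg (Ops L)) := fun M =>
  T2Class ν M ∨ ∃ α, Nonempty (M ≃ₗ[Rg (Ops L)] T31 (Wd L (X α)))

theorem isoClosed_CC (ν : Cardinal.{u}) : IsoClosed (CC (L := L) X ν) := by
  rintro M N ⟨e⟩ (h | ⟨α, ⟨e'⟩⟩)
  · exact Or.inl (isoClosed_T2Class ν M N ⟨e⟩ h)
  · exact Or.inr ⟨α, ⟨e.symm.trans e'⟩⟩

theorem T2Class_card {Op : Type u} {ν : Cardinal.{u}} (hν : ℵ₀ ≤ ν) {M : ModuleCat.{u} (Rg Op)}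
    (hM : T2Class ν M) : #M ≤ ν := by
  obtain ⟨U, hU, ⟨e⟩⟩ := hM
  have h1 : #M = #U * #U := by
    rw [mk_congr e.toEquiv]
    show #(U × U) = _
    simp
  rw [h1]
  calc #U * #U ≤ ν * ν := mul_le_mul' hU hU
    _ = ν := mul_eq_self hν

theorem deconstructible_CC {ν : Cardinal.{u}} (hν : ℵ₀ ≤ ν) (hR : #(Rg (Ops L)) ≤ ν) :
    Deconstructible (CC (L := L) X ν) := by
  refine ⟨Order.succ ν, isRegular_succ hν, ?_⟩
  have key : ∀ M : ModuleCat.{u} (Rg (Ops L)), HasFiltration (T2Class ν) M →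
      HasFiltration (fun N => CC X ν N ∧ IsPresented (Order.succ ν) N) M := by
    intro M hM
    refine hM.mono ?_
    intro N hN
    exact ⟨Or.inl hN, isPresented_of_card hν hR (Order.lt_succ ν) N (T2Class_card hν hN)⟩
  rintro M (h | ⟨α, ⟨e⟩⟩)
  · exact key M (hasFiltration_self (isoClosed_T2Class ν) h)
  · exact key M (isoClosed_filtClass (isoClosed_T2Class ν)
      (ModuleCat.of (Rg (Ops L)) (T31 (Wd L (X α)))) M ⟨e.symm⟩ (hasFiltration_T31 hR))

theorem T2Class_exact {Op : Type u} {ν : Cardinal.{u}} {M : ModuleCat.{u} (Rg Op)}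
    (hM : T2Class ν M) (y : M) (hy : (gen none : Rg Op) • y = 0) :
    ∃ z : M, y = (gen none : Rg Op) • z := by
  obtain ⟨U, -, ⟨e⟩⟩ := hM
  have h1 : (gen none : Rg Op) • e y = 0 := by rw [← map_smul, hy, map_zero]
  rw [T2_none] at h1
  have h2 : (e y).1 = 0 := congrArg Prod.snd h1
  refine ⟨e.symm (((e y).2, 0) : U × U), ?_⟩
  apply e.injective
  rw [map_smul, e.apply_symm_apply, T2_none]
  exact Prod.ext h2 rfl

theorem no_small_sub (hX : ∀ α β, α ≠ β → ¬ Nonempty (L.ElementaryEmbedding (X α) (X β)))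
    {ν ν' : Cardinal.{u}} {M : ModuleCat.{u} (Rg (Ops L))} (hM : LimClass (CC X ν) M)
    {α : Ordinal.{u}} (inc : M →ₗ[Rg (Ops L)] Wd L (X α)) (hinj : Function.Injective inc)
    (hcard : #M ≤ ν') (hlt : ν' < #(X α)) (m : M) : m = 0 := by
  obtain ⟨I, _, _, _, S, f, c, hf, hC, hc, hsurj, hker⟩ := exists_cocone hM
  by_cases hcase : ∀ i, ∃ j, i ≤ j ∧ T2Class ν (S j)
  · obtain ⟨i, y, rfl⟩ := hsurj m
    have h1 : c i ((gen none : Rg (Ops L)) • y) = 0 := by
      apply hinj
      rw [map_smul, map_smul, Wd_none, map_zero]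
    obtain ⟨j, hij, h2⟩ := hker i _ h1
    obtain ⟨k, hjk, hk⟩ := hcase j
    have h3 : (gen none : Rg (Ops L)) • (f i k (hij.trans hjk) y) = 0 := by
      rw [← map_smul]
      have := hf.map_map hij hjk ((gen none : Rg (Ops L)) • y)
      rw [← this, h2, map_zero]
    obtain ⟨z, hz⟩ := T2Class_exact hk _ h3
    rw [← hc i k (hij.trans hjk) y, hz]
    apply hinj
    rw [map_smul, map_smul, Wd_none, map_zero]
  · push Not at hcase
    obtain ⟨i₀, hi₀⟩ := hcase
    obtain ⟨i, y, rfl⟩ := hsurj m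
    obtain ⟨j, hij, hi₀j⟩ := exists_ge_ge i i₀
    rcases hC j with h | ⟨β, ⟨e⟩⟩
    · exact absurd h (hi₀ j hi₀j)
    · have hz := hom_T31_eq_zero (inc.comp ((c j).comp e.symm.toLinearMap)) (ν := ν') ?_ ?_
        (e (f i j hij y))
      · have h1 : inc (c j (f i j hij y)) = 0 := by
          have h2 : inc (c j (e.symm (e (f i j hij y)))) = 0 := hz
          rwa [e.symm_apply_apply] at h2
        rw [← hc i j hij y]
        apply hinj
        rw [h1, map_zero]
      · refine (mk_le_mk_of_subset ?_).trans ((mk_range_le (f := inc)).trans hcard)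
        rintro _ ⟨v, rfl⟩
        exact ⟨_, rfl⟩
      · intro hemb
        by_cases hβ : β = α
        · rw [hβ]
          exact hlt
        · exact absurd hemb (hX β α hβ)

theorem not_deconstructible (hX : ∀ α β, α ≠ β → ¬ Nonempty (L.ElementaryEmbedding (X α) (X β)))
    (ν : Cardinal.{u}) : ¬ Deconstructible (LimClass (CC (L := L) X ν)) := by
  rintro ⟨κ, hκ, hd⟩
  let ν' : Cardinal.{u} := κ + #(Rg (Ops L))
  have hν' : ℵ₀ ≤ ν' := hκ.aleph0_le.trans le_self_add
  have hR : #(Rg (Ops L)) ≤ ν' := le_add_self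
  obtain ⟨α, hα⟩ := exists_large X hX ν'
  have hN : LimClass (CC X ν) (ModuleCat.of (Rg (Ops L)) (Wd L (X α))) :=
    limClass_T31 Wd_none (Or.inr ⟨α, ⟨LinearEquiv.refl _ _⟩⟩)
  obtain ⟨σ, F, h1, h2, h3, h4, h5⟩ := hd _ hN
  have hne : (⊤ : Submodule (Rg (Ops L)) (Wd L (X α))) ≠ ⊥ := by
    have : Nonempty (X α) := by
      rw [← mk_ne_zero_iff]
      exact ((zero_le (a := ν')).trans_lt hα).ne'
    obtain ⟨x⟩ := this
    intro h
    have h5 : ∀ w : Wd L (X α), w = 0 := by
      intro w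
      have h6 : w ∈ (⊤ : Submodule (Rg (Ops L)) (Wd L (X α))) := Submodule.mem_top
      rw [h] at h6
      exact (Submodule.mem_bot _).1 h6
    have h6 : (Finsupp.single (fun _ => x) 1 : (ℕ → X α) →₀ ℤ) = 0 := h5 _
    rw [Finsupp.single_eq_zero] at h6
    exact one_ne_zero h6
  obtain ⟨ξ, hξ, hmin⟩ := WellFounded.has_min (wellFounded_lt (α := Ordinal.{u}))
    {ξ | ξ ≤ σ ∧ F ξ ≠ ⊥} ⟨σ, le_rfl, by rw [h2]; exact hne⟩
  have hbot : ∀ δ < ξ, F δ = ⊥ := by
    intro δ hδ
    by_contra h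
    exact hmin δ ⟨hδ.le.trans hξ.1, h⟩ hδ
  rcases Ordinal.zero_or_succ_or_isSuccLimit ξ with rfl | ⟨δ, rfl⟩ | hlim
  · exact hξ.2 h1
  · have hδ : δ < σ := Order.add_one_le_iff.1 hξ.1
    have hFδ : F δ = ⊥ := hbot δ (Order.lt_add_one_iff.2 le_rfl)
    obtain ⟨h6, G, Z, p, q, hG, hZ, hp, -⟩ := h5 δ hδ
    have hb : (F δ).submoduleOf (F (δ + 1)) = ⊥ := by
      rw [hFδ, eq_bot_iff]
      intro x hx
      have : (x : Wd L (X α)) = 0 := hx
      exact (Submodule.mem_bot _).2 (Subtype.ext this)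
    let e : (F (δ + 1) ⧸ (F δ).submoduleOf (F (δ + 1))) ≃ₗ[Rg (Ops L)] F (δ + 1) :=
      Submodule.quotEquivOfEqBot _ hb
    have hc : #(F (δ + 1) ⧸ (F δ).submoduleOf (F (δ + 1))) ≤ ν' :=
      (mk_le_of_surjective hp).trans (card_finsupp_le hν' hR G (hG.le.trans le_self_add))
    have h7 := no_small_sub X hX h6 ((F (δ + 1)).subtype.comp e.toLinearMap)
      (by
        intro a b hab
        exact e.injective (Subtype.ext hab)) hc hα
    apply hξ.2
    rw [eq_bot_iff]
    intro x hx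
    have h8 := h7 (e.symm ⟨x, hx⟩)
    have h9 : (⟨x, hx⟩ : F (δ + 1)) = 0 := by
      have := congrArg e h8
      rwa [e.apply_symm_apply, map_zero] at this
    exact (Submodule.mem_bot _).2 (congrArg Subtype.val h9)
  · apply hξ.2
    rw [eq_bot_iff]
    intro x hx
    obtain ⟨β, hβ, h6⟩ := (h4 ξ hξ.1 hlim x).1 hx
    rw [hbot β hβ] at h6
    exact h6

end

/-- **Main equivalence.** -/
theorem deconstructible_iff_vopenka :
    (∀ (R : Type u) [Ring R] (C : ModClass R), IsoClosed C → Deconstructible C →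
      Deconstructible (LimClass C)) ↔ Vopenka.{u} := by
  constructor
  · intro h
    by_contra hV
    unfold Vopenka at hV
    push Not at hV
    obtain ⟨L, X, str, hX⟩ := hV
    have hX' : ∀ α β, α ≠ β → ¬ Nonempty (L.ElementaryEmbedding (X α) (X β)) := by
      intro α β hne
      rw [not_nonempty_iff]
      exact hX α β hne
    let ν : Cardinal.{u} := ℵ₀ + #(Rg (Ops L))
    exact not_deconstructible X hX' ν (h _ (CC X ν) (isoClosed_CC X ν)
      (deconstructible_CC X le_self_add le_add_self))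
  · intro hV R _ C hC _
    exact deconstructible_limClass_of_vopenka hV hC

end Pool.Agent.H86.Decon
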