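import Pool.Agent.H86.Decon.Lim

/-!
# Germ systems: the ind-representable functor of a direct limit
-/

universe u

namespace Pool.Agent.H86.Decon

open CategoryTheory Cardinal

variable {R : Type u} [Ring R]

/-- A germ system presents the module `N` as a filtered colimit of modules `A t`: think of `F t` as
the group of germs of homomorphisms from `A t` to the members of a direct system with limit `N`. -/
structure GermSys {T : Type u} (A : T → ModuleCat.{u} R) (N : ModuleCat.{u} R) where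
  F : T → Type u
  grp : ∀ t, AddCommGroup (F t)
  act : ∀ {t t' : T}, F t → (A t' →ₗ[R] A t) → F t'
  act_add : ∀ {t t' : T} (q q' : F t) (g : A t' →ₗ[R] A t), act (q + q') g = act q g + act q' g
  act_add' : ∀ {t t' : T} (q : F t) (g g' : A t' →ₗ[R] A t), act q (g + g') = act q g + act q g'
  act_id : ∀ {t : T} (q : F t), act q LinearMap.id = q
  act_comp : ∀ {t t' t'' : T} (q : F t) (g : A t' →ₗ[R] A t) (h : A t'' →ₗ[R] A t'),
    act (act q g) h = act q (g.comp h)
  ev : ∀ {t : T}, F t → (A t →ₗ[R] N)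
  ev_add : ∀ {t : T} (q q' : F t), ev (q + q') = ev q + ev q'
  ev_act : ∀ {t t' : T} (q : F t) (g : A t' →ₗ[R] A t) (x : A t'), ev (act q g) x = ev q (g x)
  ir1 : ∀ {t₁ t₂ : T} (q₁ : F t₁) (q₂ : F t₂), ∃ (t : T) (q : F t) (g₁ : A t₁ →ₗ[R] A t)
    (g₂ : A t₂ →ₗ[R] A t), q₁ = act q g₁ ∧ q₂ = act q g₂
  ir2 : ∀ {t t' : T} (q : F t) (g : A t' →ₗ[R] A t), act q g = 0 →
    ∃ (t'' : T) (q' : F t'') (h : A t →ₗ[R] A t''), q = act q' h ∧ h.comp g = 0
  surj : ∀ n : N, ∃ (t : T) (q : F t) (x : A t), ev q x = n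
  ker : ∀ {t : T} (q : F t) (x : A t), ev q x = 0 →
    ∃ (t' : T) (q' : F t') (h : A t →ₗ[R] A t'), q = act q' h ∧ h x = 0

attribute [instance] GermSys.grp

section GermExists

variable {T : Type u} (A : T → ModuleCat.{u} R) (N : ModuleCat.{u} R)
variable {I : Type u} [PartialOrder I] [IsDirected I (· ≤ ·)] [Nonempty I] (s : I → T)
variable (f : ∀ i j, i ≤ j → (A (s i) →ₗ[R] A (s j)))

/-- transition maps of germs -/
def gTr (t : T) (i j : I) (h : i ≤ j) : (A t →ₗ[R] A (s i)) →+ (A t →ₗ[R] A (s j)) :=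
  AddMonoidHom.mk' (fun g => (f i j h).comp g) (fun a b => by
    ext x; simp)

omit [IsDirected I (· ≤ ·)] [Nonempty I] in
theorem gTr_sys (hf : DirectedSystem (fun i => A (s i)) (fun i j h => f i j h)) (t : T) :
    DirectedSystem (fun i => (A t →ₗ[R] A (s i))) (fun i j h => gTr A s f t i j h) where
  map_self := fun {i} g => by
    ext x
    exact hf.map_self (g x)
  map_map := fun {k j i} hij hjk g => by
    ext x
    exact hf.map_map hij hjk (g x)

/-- the germ system of a direct system -/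
theorem exists_germSys_aux (hf : DirectedSystem (fun i => A (s i)) (fun i j h => f i j h))
    (c : ∀ i, A (s i) →ₗ[R] N) (hc : ∀ i j h x, c j (f i j h x) = c i x)
    (hsurj : ∀ n, ∃ i x, c i x = n)
    (hker : ∀ i x, c i x = 0 → ∃ j, ∃ h : i ≤ j, f i j h x = 0) : Nonempty (GermSys A N) := by
  classical
  have hdir : ∀ t : T, DirectedSystem (fun i => (A t →ₗ[R] A (s i)))
      (fun i j h => gTr A s f t i j h) := gTr_sys A s f hf
  let F : T → Type u := fun t =>
    AddCommGroup.DirectLimit (fun i => (A t →ₗ[R] A (s i))) (gTr A s f t)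
  let of : ∀ t i, (A t →ₗ[R] A (s i)) →+ F t := fun t i =>
    AddCommGroup.DirectLimit.of (fun i => (A t →ₗ[R] A (s i))) (gTr A s f t) i
  have hof : ∀ t i j (h : i ≤ j) (g : A t →ₗ[R] A (s i)), of t j ((f i j h).comp g) = of t i g :=
    fun t i j h g => AddCommGroup.DirectLimit.of_f (G := fun i => (A t →ₗ[R] A (s i)))
      (f := gTr A s f t) h g
  have hind : ∀ t (z : F t), ∃ i, ∃ g : A t →ₗ[R] A (s i), of t i g = z := by
    intro t z
    refine AddCommGroup.DirectLimit.induction_on z ?_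
    intro i x
    exact ⟨i, x, rfl⟩
  have hzero : ∀ t i (g : A t →ₗ[R] A (s i)), of t i g = 0 → ∃ j, ∃ h : i ≤ j,
      (f i j h).comp g = 0 := by
    intro t i g h
    obtain ⟨j, hij, h2⟩ := AddCommGroup.DirectLimit.of.zero_exact
      (G := fun i => (A t →ₗ[R] A (s i))) (f := gTr A s f t) i g h
    exact ⟨j, hij, h2⟩
  -- precomposition
  let pre : ∀ {t t' : T}, (A t' →ₗ[R] A t) → (F t →+ F t') := fun {t t'} g =>
    AddCommGroup.DirectLimit.map
      (fun i => AddMonoidHom.mk' (fun a : (A t →ₗ[R] A (s i)) => a.comp g) (fun a b => by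
        ext x; simp)) (fun i j h => by
        ext a x; rfl)
  have hpre : ∀ {t t' : T} (g : A t' →ₗ[R] A t) i (a : A t →ₗ[R] A (s i)),
      pre g (of t i a) = of t' i (a.comp g) := fun {t t'} g i a =>
    AddCommGroup.DirectLimit.map_apply_of _ _ _
  let evh : ∀ t : T, F t →+ (A t →ₗ[R] N) := fun t =>
    AddCommGroup.DirectLimit.lift _ _ _ (fun i => AddMonoidHom.mk'
      (fun a : (A t →ₗ[R] A (s i)) => (c i).comp a) (fun a b => by ext x; simp))
      (fun i j h a => by
        ext x
        exact hc i j h (a x))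
  have hev : ∀ t i (a : A t →ₗ[R] A (s i)), evh t (of t i a) = (c i).comp a := fun t i a =>
    AddCommGroup.DirectLimit.lift_of _ _ _ _ _
  refine Nonempty.intro
    { F := F
      grp := fun t => inferInstance
      act := fun q g => pre g q
      act_add := fun q q' g => map_add _ _ _
      act_add' := ?_
      act_id := ?_
      act_comp := ?_
      ev := fun {t} q => evh t q
      ev_add := fun q q' => map_add _ _ _
      ev_act := ?_
      ir1 := ?_
      ir2 := ?_
      surj := ?_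
      ker := ?_ }
  · intro t t' q g g'
    obtain ⟨i, a, rfl⟩ := hind t q
    rw [hpre, hpre, hpre, ← map_add]
    congr 1
    ext x
    simp
  · intro t q
    obtain ⟨i, a, rfl⟩ := hind t q
    rw [hpre]
    rfl
  · intro t t' t'' q g h
    obtain ⟨i, a, rfl⟩ := hind t q
    rw [hpre, hpre, hpre]
    rfl
  · intro t t' q g x
    obtain ⟨i, a, rfl⟩ := hind t q
    rw [hpre, hev, hev]
    rfl
  · intro t₁ t₂ q₁ q₂
    obtain ⟨i, a, rfl⟩ := hind t₁ q₁
    obtain ⟨j, b, rfl⟩ := hind t₂ q₂
    obtain ⟨k, hik, hjk⟩ := exists_ge_ge i j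
    refine ⟨s k, of (s k) k LinearMap.id, (f i k hik).comp a, (f j k hjk).comp b, ?_, ?_⟩
    · rw [hpre, LinearMap.id_comp, hof]
    · rw [hpre, LinearMap.id_comp, hof]
  · intro t t' q g h
    obtain ⟨i, a, rfl⟩ := hind t q
    rw [hpre] at h
    obtain ⟨j, hij, h2⟩ := hzero _ _ _ h
    refine ⟨s j, of (s j) j LinearMap.id, (f i j hij).comp a, ?_, h2⟩
    rw [hpre, LinearMap.id_comp, hof]
  · intro n
    obtain ⟨i, x, rfl⟩ := hsurj n
    refine ⟨s i, of (s i) i LinearMap.id, x, ?_⟩
    rw [hev]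
    rfl
  · intro t q x h
    obtain ⟨i, a, rfl⟩ := hind t q
    rw [hev] at h
    obtain ⟨j, hij, h2⟩ := hker i (a x) h
    refine ⟨s j, of (s j) j LinearMap.id, (f i j hij).comp a, ?_, h2⟩
    rw [hpre, LinearMap.id_comp, hof]

end GermExists

/-- a direct limit has a cocone -/
theorem exists_cocone {C : ModClass R} {N : ModuleCat.{u} R} (hN : LimClass C N) :
    ∃ (I : Type u) (_ : PartialOrder I) (_ : IsDirected I (· ≤ ·)) (_ : Nonempty I)
      (S : I → ModuleCat.{u} R) (f : ∀ i j, i ≤ j → (S i →ₗ[R] S j))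
      (c : ∀ i, S i →ₗ[R] N), DirectedSystem (fun i => S i) (fun i j h => f i j h) ∧
      (∀ i, C (S i)) ∧ (∀ i j h x, c j (f i j h x) = c i x) ∧
      (∀ n, ∃ i x, c i x = n) ∧
      ∀ i x, c i x = 0 → ∃ j, ∃ h : i ≤ j, f i j h x = 0 := by
  obtain ⟨I, a1, a2, a3, a4, S, f, h1, h2, ⟨e⟩⟩ := hN
  refine ⟨I, a1, a2, a3, S, f, fun i =>
    e.symm.toLinearMap.comp (Module.DirectLimit.of R I (fun i => S i) f i), h1, h2, ?_, ?_, ?_⟩
  · intro i j h x
    simp
  · intro n
    obtain ⟨i, x, hx⟩ := Module.DirectLimit.exists_of (e n)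
    refine ⟨i, x, ?_⟩
    simp [hx]
  · intro i x h
    have h3 : Module.DirectLimit.of R I (fun i => S i) f i x = 0 := by
      have h4 : e.symm (Module.DirectLimit.of R I (fun i => S i) f i x) = 0 := h
      simpa using h4
    obtain ⟨j, hij, h5⟩ := Module.DirectLimit.of.zero_exact h3
    exact ⟨j, hij, h5⟩

theorem exists_germSys {T : Type u} (A : T → ModuleCat.{u} R) (N : ModuleCat.{u} R)
    (hN : LimClass (fun M => ∃ t, Nonempty (M ≃ₗ[R] A t)) N) : Nonempty (GermSys A N) := by
  obtain ⟨I, _, _, _, S, f, c, hf, hS, hc, hsurj, hker⟩ := exists_cocone hN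
  choose s e0 using hS
  let e : ∀ i, S i ≃ₗ[R] A (s i) := fun i => Classical.choice (e0 i)
  refine exists_germSys_aux A N s
    (fun i j h => (e j).toLinearMap.comp ((f i j h).comp (e i).symm.toLinearMap)) ?_
    (fun i => (c i).comp (e i).symm.toLinearMap) ?_ ?_ ?_
  · refine { map_self := fun {i} x => ?_, map_map := fun {k j i} hij hjk x => ?_ }
    · have := hf.map_self ((e i).symm x)
      simp only [LinearMap.comp_apply, LinearEquiv.coe_coe]
      rw [this]
      simp
    · have := hf.map_map hij hjk ((e i).symm x)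
      simp only [LinearMap.comp_apply, LinearEquiv.coe_coe, LinearEquiv.symm_apply_apply]
      rw [this]
  · intro i j h x
    simp [hc]
  · intro n
    obtain ⟨i, x, rfl⟩ := hsurj n
    exact ⟨i, e i x, by simp⟩
  · intro i x h
    obtain ⟨j, hij, h2⟩ := hker i ((e i).symm x) h
    exact ⟨j, hij, by simp [h2]⟩

end Pool.Agent.H86.Decon
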