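import Pool.Agent.H86.Decon.Reduce

/-!
# Deconstructible classes closed under filtrations
-/

universe u

namespace Pool.Agent.H86.Decon

open CategoryTheory Cardinal

variable {R : Type u} [Ring R]

theorem hasFiltration_of_subsingleton {A : ModClass R} (M : ModuleCat.{u} R) [Subsingleton M] :
    HasFiltration A M := by
  refine ⟨0, fun _ => ⊥, rfl, Subsingleton.elim _ _, fun α _ => le_rfl, ?_, ?_⟩
  · intro α hα hlim x
    exact absurd (le_antisymm hα (zero_le (a := α))) hlim.ne_bot
  · intro α hα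
    exact absurd hα (not_lt_of_ge (zero_le (a := α)))

theorem filtration_mono {M : ModuleCat.{u} R} {σ : Ordinal.{u}} {F : Ordinal.{u} → Submodule R M}
    (h3 : ∀ α < σ, F α ≤ F (α + 1))
    (h4 : ∀ α ≤ σ, Order.IsSuccLimit α → ∀ x, x ∈ F α ↔ ∃ β < α, x ∈ F β)
    {α β : Ordinal.{u}} (h : α ≤ β) (hβ : β ≤ σ) : F α ≤ F β := by
  induction β using Ordinal.limitRecOn with
  | zero =>
    rw [le_antisymm h (zero_le (a := α))]
  | add_one β ih =>
    rcases h.eq_or_lt with rfl | h
    · exact le_rfl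
    · have hβ' : β < σ := Order.add_one_le_iff.1 hβ
      exact (ih (Order.lt_add_one_iff.1 h) hβ'.le).trans (h3 β hβ')
  | limit β hlim ih =>
    rcases h.eq_or_lt with rfl | h
    · exact le_rfl
    · intro x hx
      exact (h4 β hβ hlim x).2 ⟨α, h, hx⟩

/-- a small submodule containing a given set and closed under a small-valued operation -/
theorem exists_closed_submodule (M : ModuleCat.{u} R) (B : M → Set M) (X : Set M)
    (ν : Cardinal.{u}) (hν : ℵ₀ ≤ ν) (hR : #R ≤ ν) (hB : ∀ x, #(B x) ≤ ν) (hX : #X ≤ ν) :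
    ∃ P : Submodule R M, X ⊆ P ∧ #P ≤ ν ∧ ∀ x ∈ P, B x ⊆ P := by
  have henum : ∀ x, ∃ e : ν.out → M, B x ⊆ Set.range e := by
    intro x
    have h1 : #(B x) ≤ #ν.out := by rw [mk_out]; exact hB x
    obtain ⟨i⟩ := h1
    refine ⟨Function.extend i (fun y => y.1) (fun _ => 0), ?_⟩
    intro y hy
    exact ⟨i ⟨y, hy⟩, i.injective.extend_apply _ _ _⟩
  choose e he using henum
  let op : (Option (R ⊕ ν.out)) → M → M → M := fun j a b => match j with
    | none => a + b
    | some (Sum.inl r) => r • a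
    | some (Sum.inr j) => e a j
  have hJ : #(Option (R ⊕ ν.out)) ≤ ν := by
    rw [mk_option, mk_sum, lift_id, lift_id, mk_out]
    calc #R + ν + 1 ≤ ν + ν + ν := add_le_add (add_le_add hR le_rfl) (one_le_aleph0.trans hν)
      _ = ν := by rw [add_eq_self hν, add_eq_self hν]
  obtain ⟨K, h1, h2, h3⟩ := exists_closed op (X ∪ {0}) ν hν hJ (by
    refine (mk_union_le _ _).trans ?_
    calc #X + #({0} : Set M) ≤ ν + ν :=
          add_le_add hX (by rw [mk_singleton]; exact one_le_aleph0.trans hν)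
      _ = ν := add_eq_self hν)
  refine ⟨{ carrier := K
            add_mem' := fun {a b} ha hb => h3 none a b ha hb
            zero_mem' := h1 (Or.inr rfl)
            smul_mem' := fun c {a} ha => h3 (some (Sum.inl c)) a a ha ha },
    fun x hx => h1 (Or.inl hx), h2, ?_⟩
  intro x hx y hy
  obtain ⟨j, rfl⟩ := he x hy
  exact h3 (some (Sum.inr j)) x x hx hx

/-- **Hill type closure**: in a deconstructible class closed under filtrations, small subsets of
members lie in small members. -/
theorem smallSub_of_filtrationClosed {C : ModClass R} (hC : IsoClosed C)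
    (hfilt : ∀ M, HasFiltration C M → C M) {κ : Cardinal.{u}} (hd : DeconstructibleAt κ C)
    (ν : Cardinal.{u}) (hν : ℵ₀ ≤ ν) (hR : #R ≤ ν) (hκ : κ ≤ ν) : SmallSub (Order.succ ν) C := by
  intro M hM X hX
  obtain ⟨σ, F, h1, h2, h3, h4, h5⟩ := hd M hM
  have hmono : ∀ {α β : Ordinal.{u}}, α ≤ β → β ≤ σ → F α ≤ F β :=
    fun h hβ => filtration_mono h3 h4 h hβ
  -- representatives
  have hA : ∀ α < σ, ∃ A : Set M, #A ≤ ν ∧ A ⊆ F (α + 1) ∧
      ∀ z ∈ F (α + 1), ∃ a ∈ A, z - a ∈ F α := by
    intro α hα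
    obtain ⟨-, G, Z, p, q, hG, hZ, hp, -⟩ := h5 α hα
    have hc : #(F (α + 1) ⧸ (F α).submoduleOf (F (α + 1))) ≤ ν :=
      (mk_le_of_surjective hp).trans (card_finsupp_le hν hR G (hG.le.trans hκ))
    let lft : (F (α + 1) ⧸ (F α).submoduleOf (F (α + 1))) → M := fun z =>
      ((Submodule.Quotient.mk_surjective _ z).choose : M)
    refine ⟨Set.range lft, mk_range_le.trans hc, ?_, ?_⟩
    · rintro _ ⟨z, rfl⟩
      exact Subtype.property _
    · intro z hz
      let w : (F (α + 1) ⧸ (F α).submoduleOf (F (α + 1))) := Submodule.Quotient.mk ⟨z, hz⟩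
      refine ⟨lft w, ⟨w, rfl⟩, ?_⟩
      have h6 := (Submodule.Quotient.mk_surjective _ w).choose_spec
      have h7 := (Submodule.Quotient.eq _).1 h6.symm
      exact h7
  choose! A hA1 hA2 hA3 using hA
  let B : M → Set M := fun x => {y | ∃ α < σ, x ∈ F (α + 1) ∧ x ∉ F α ∧ y ∈ A α}
  have hB : ∀ x, #(B x) ≤ ν := by
    intro x
    by_cases hx : ∃ α < σ, x ∈ F (α + 1) ∧ x ∉ F α
    · obtain ⟨α, hα, h6, h7⟩ := hx
      refine (mk_le_mk_of_subset ?_).trans (hA1 α hα)
      rintro y ⟨β, hβ, h8, h9, h10⟩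
      rcases lt_trichotomy α β with h | rfl | h
      · exact absurd (hmono (Order.add_one_le_iff.2 h) hβ.le h6) h9
      · exact h10
      · exact absurd (hmono (Order.add_one_le_iff.2 h) hα.le h8) h7
    · have : B x = ∅ := by
        rw [Set.eq_empty_iff_forall_notMem]
        rintro y ⟨α, hα, h6, h7, h8⟩
        exact hx ⟨α, hα, h6, h7⟩
      rw [this]
      simp
  obtain ⟨P, hXP, hPc, hP⟩ := exists_closed_submodule M B X ν hν hR hB (Order.lt_succ_iff.1 hX)
  refine ⟨P, hXP, Order.lt_succ_iff.2 hPc, hfilt _ ?_⟩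
  refine ⟨σ, fun α => (F α).submoduleOf P, ?_, ?_, ?_, ?_, ?_⟩
  · show (F 0).submoduleOf P = ⊥
    rw [h1, eq_bot_iff]
    intro x hx
    have : (x : M) = 0 := hx
    exact (Submodule.mem_bot R).2 (Subtype.ext this)
  · show (F σ).submoduleOf P = ⊤
    rw [h2, eq_top_iff]
    intro x _
    exact Submodule.mem_top (R := R) (x := (x : M))
  · intro α hα x hx
    exact h3 α hα hx
  · intro α hα hlim x
    exact h4 α hα hlim x
  · intro α hα
    by_cases hx : ∃ x ∈ P, x ∈ F (α + 1) ∧ x ∉ F α
    · obtain ⟨x, hxP, hx1, hx2⟩ := hx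
      have hAP : A α ⊆ P := fun y hy => hP x hxP ⟨α, hα, hx1, hx2, hy⟩
      let φ : (F (α + 1)).submoduleOf P →ₗ[R] (F (α + 1) ⧸ (F α).submoduleOf (F (α + 1))) :=
        ((F α).submoduleOf (F (α + 1))).mkQ.comp
          ((P.subtype.comp ((F (α + 1)).submoduleOf P).subtype).codRestrict (F (α + 1))
            (fun z => z.2))
      refine fac_of_surj (P := (F α).submoduleOf P) (P' := (F (α + 1)).submoduleOf P) hC
        (h5 α hα).1 φ ?_ ?_
      · intro z
        obtain ⟨⟨z, hz⟩, rfl⟩ := Submodule.Quotient.mk_surjective _ z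
        obtain ⟨a, ha, hza⟩ := hA3 α hα z hz
        refine ⟨⟨⟨a, hAP ha⟩, hA2 α hα ha⟩, ?_⟩
        show Submodule.Quotient.mk _ = Submodule.Quotient.mk _
        rw [Submodule.Quotient.eq]
        show a - z ∈ F α
        rw [← neg_sub]
        exact (F α).neg_mem hza
      · intro z
        show Submodule.Quotient.mk _ = 0 ↔ _
        rw [Submodule.Quotient.mk_eq_zero]
        rfl
    · push Not at hx
      apply hfilt
      have : Subsingleton ((F (α + 1)).submoduleOf P ⧸
          ((F α).submoduleOf P).submoduleOf ((F (α + 1)).submoduleOf P)) := by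
        rw [Submodule.Quotient.subsingleton_iff, eq_top_iff]
        intro z _
        exact hx z.1 z.1.2 z.2
      exact hasFiltration_of_subsingleton (ModuleCat.of R _)

/-- **The limit closure of a deconstructible class closed under filtrations is
deconstructible.** -/
theorem deconstructible_limClass_of_filtrationClosed {C : ModClass R} (hC : IsoClosed C)
    (hfilt : ∀ M, HasFiltration C M → C M) (hd : Deconstructible C) :
    Deconstructible (LimClass C) := by
  obtain ⟨κ, hκ, hd⟩ := hd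
  let ν : Cardinal.{u} := κ + #R
  have h1 : ℵ₀ ≤ ν := hκ.aleph0_le.trans le_self_add
  exact deconstructible_limClass_of_smallSub hC (h1.trans (Order.le_succ ν))
    (smallSub_of_filtrationClosed hC hfilt hd ν h1 le_add_self le_self_add)

end Pool.Agent.H86.Decon
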