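import Pool.Agent.H86.Decon.VP

/-!
# Maps between groups of sequences which respect the first order structure
-/

universe u

namespace Pool.Agent.H86.Decon

open Cardinal FirstOrder

variable {L : FirstOrder.Language.{u, u}} {X Y : Type u} [L.Structure X] [L.Structure Y]

/-- reindexing of sequences, extended linearly -/
noncomputable def pull (m : ℕ → ℕ) (v : (ℕ → X) →₀ ℤ) : (ℕ → X) →₀ ℤ :=
  Finsupp.mapDomain (fun s => s ∘ m) v

open Classical in
/-- the projection onto the sequences satisfying a formula -/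
noncomputable def sel {n : ℕ} (φ : L.Formula (Fin n)) (v : (ℕ → X) →₀ ℤ) : (ℕ → X) →₀ ℤ :=
  Finsupp.filter (fun s => φ.Realize (fun i : Fin n => s i)) v

/-- interleaving -/
def jn (s a : ℕ → X) : ℕ → X := fun i => if i % 2 = 0 then s (i / 2) else a (i / 2)

theorem jn_even (s a : ℕ → X) (i : ℕ) : jn s a (2 * i) = s i := by
  have h1 : 2 * i % 2 = 0 := by omega
  have h2 : 2 * i / 2 = i := by omega
  simp [jn, h2]

theorem jn_odd (s a : ℕ → X) (i : ℕ) : jn s a (2 * i + 1) = a i := by
  have h1 : (2 * i + 1) % 2 = 1 := by omega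
  have h2 : (2 * i + 1) / 2 = i := by omega
  simp [jn, h1, h2]

theorem exists_embedding_of_hom (h : ((ℕ → X) →₀ ℤ) →+ ((ℕ → Y) →₀ ℤ))
    (hm : ∀ m v, h (pull m v) = pull m (h v))
    (hs : ∀ {n : ℕ} (φ : L.Formula (Fin n)) v, h (sel φ v) = sel φ (h v)) (hne : h ≠ 0) :
    Nonempty (L.ElementaryEmbedding X Y) ∧ #X ≤ #(Set.range h) := by
  classical
  let H : (ℕ → X) → ((ℕ → Y) →₀ ℤ) := fun s => h (Finsupp.single s 1)
  have H1 : ∀ (s : ℕ → X) (m : ℕ → ℕ), H (s ∘ m) = Finsupp.mapDomain (fun t => t ∘ m) (H s) := by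
    intro s m
    have := hm m (Finsupp.single s 1)
    rw [pull, Finsupp.mapDomain_single] at this
    exact this
  have H2 : ∀ (s : ℕ → X) {n : ℕ} (φ : L.Formula (Fin n)), φ.Realize (fun i : Fin n => s i) →
      ∀ t ∈ (H s).support, φ.Realize (fun i : Fin n => t i) := by
    intro s n φ hφ t ht
    have h1 := hs φ (Finsupp.single s 1)
    have h2 : sel φ (Finsupp.single s (1 : ℤ)) = Finsupp.single s 1 :=
      Finsupp.filter_single_of_pos _ hφ
    rw [h2] at h1
    have h3 : t ∈ (sel φ (H s)).support := by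
      have e : sel φ (H s) = H s := h1.symm
      rw [e]
      exact ht
    rw [sel, Finsupp.support_filter, Finset.mem_filter] at h3
    exact h3.2
  let n : (ℕ → X) → ℕ := fun s => (H s).support.card
  have hsub : ∀ (s : ℕ → X) (m : ℕ → ℕ),
      (H (s ∘ m)).support ⊆ (H s).support.image (fun t => t ∘ m) := by
    intro s m
    rw [H1]
    exact Finsupp.mapDomain_support
  have hn : ∀ (s : ℕ → X) (m : ℕ → ℕ), n (s ∘ m) ≤ n s := fun s m =>
    (Finset.card_le_card (hsub s m)).trans Finset.card_image_le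
  have hbdd : ∃ B, ∀ s, n s ≤ B := by
    by_contra hcon
    push Not at hcon
    choose s hs using hcon
    let S : ℕ → X := fun i => s (Nat.unpair i).1 (Nat.unpair i).2
    have h1 : ∀ k, n (s k) ≤ n S := by
      intro k
      have e : s k = S ∘ (fun j => Nat.pair k j) := by
        funext j
        simp [S]
      calc n (s k) = n (S ∘ (fun j => Nat.pair k j)) := by rw [← e]
        _ ≤ n S := hn _ _
    exact absurd (h1 (n S)) (not_le_of_gt (hs (n S)))
  obtain ⟨s₁, hs₁⟩ : ∃ s, H s ≠ 0 := by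
    by_contra hcon
    push Not at hcon
    apply hne
    apply Finsupp.addHom_ext
    intro s a
    have e : Finsupp.single s a = a • Finsupp.single s (1 : ℤ) := by
      rw [Finsupp.smul_single, smul_eq_mul, mul_one]
    rw [e, map_zsmul, show h (Finsupp.single s 1) = 0 from hcon s, smul_zero]
    rfl
  obtain ⟨s₀, hs₀⟩ : ∃ s₀, ∀ s, n s ≤ n s₀ := by
    obtain ⟨B, hB⟩ := hbdd
    have h1 : sSup (Set.range n) ∈ Set.range n :=
      Nat.sSup_mem ⟨_, s₁, rfl⟩ ⟨B, by rintro _ ⟨s, rfl⟩; exact hB s⟩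
    obtain ⟨s₀, h2⟩ := h1
    refine ⟨s₀, fun s => ?_⟩
    rw [h2]
    exact le_csSup ⟨B, by rintro _ ⟨s, rfl⟩; exact hB s⟩ ⟨s, rfl⟩
  have hpos : 0 < n s₀ := by
    refine lt_of_lt_of_le ?_ (hs₀ s₁)
    exact Finset.card_pos.2 (Finsupp.support_nonempty_iff.2 hs₁)
  obtain ⟨t₀, ht₀⟩ := Finset.card_pos.1 hpos
  -- bijectivity of restriction for maximal sequences
  have hbij : ∀ (s : ℕ → X) (m : ℕ → ℕ), n s₀ ≤ n (s ∘ m) →
      Set.InjOn (fun t : ℕ → Y => t ∘ m) (H s).support ∧
      (H s).support.image (fun t => t ∘ m) = (H (s ∘ m)).support := by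
    intro s m hle
    have h1 : (H (s ∘ m)).support.card ≤ ((H s).support.image (fun t => t ∘ m)).card :=
      Finset.card_le_card (hsub s m)
    have h2 : ((H s).support.image (fun t => t ∘ m)).card ≤ (H s).support.card :=
      Finset.card_image_le
    have h3 : (H s).support.card ≤ n s₀ := hs₀ s
    have h4 : n s₀ ≤ (H (s ∘ m)).support.card := hle
    refine ⟨Finset.card_image_iff.1 (le_antisymm h2 (by omega)), ?_⟩
    exact (Finset.eq_of_subset_of_card_le (hsub s m) (by omega)).symm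
  let ev : ℕ → ℕ := fun i => 2 * i
  have hjev : ∀ a, jn s₀ a ∘ ev = s₀ := fun a => funext fun i => jn_even s₀ a i
  have hnj : ∀ a, n s₀ ≤ n (jn s₀ a) := by
    intro a
    have := hn (jn s₀ a) ev
    rwa [hjev] at this
  have hτ : ∀ a, ∃ t ∈ (H (jn s₀ a)).support, t ∘ ev = t₀ := by
    intro a
    obtain ⟨-, h2⟩ := hbij (jn s₀ a) ev (by rw [hjev])
    rw [hjev] at h2
    rw [← h2] at ht₀
    obtain ⟨t, h3, h4⟩ := Finset.mem_image.1 ht₀
    exact ⟨t, h3, h4⟩
  choose τ hτ1 hτ2 using hτ
  have hτu : ∀ a, ∀ t ∈ (H (jn s₀ a)).support, t ∘ ev = t₀ → t = τ a := by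
    intro a t ht he
    obtain ⟨h1, -⟩ := hbij (jn s₀ a) ev (by rw [hjev])
    exact h1 ht (hτ1 a) (he.trans (hτ2 a).symm)
  let f : X → Y := fun x => τ (fun _ => x) 1
  have hf : ∀ (a : ℕ → X) (j : ℕ), f (a j) = τ a (2 * j + 1) := by
    intro a j
    let m : ℕ → ℕ := fun i => if i % 2 = 0 then i else 2 * j + 1
    have e : jn s₀ a ∘ m = jn s₀ (fun _ => a j) := by
      funext i
      by_cases hi : i % 2 = 0
      · simp [m, jn, hi]
      · have h1 : m i = 2 * j + 1 := if_neg hi
        show jn s₀ a (m i) = _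
        rw [h1, jn_odd]
        simp [jn, hi]
    obtain ⟨-, h2⟩ := hbij (jn s₀ a) m (by rw [e]; exact hnj _)
    rw [e] at h2
    have h3 : τ a ∘ m ∈ (H (jn s₀ (fun _ => a j))).support := by
      rw [← h2]
      exact Finset.mem_image_of_mem _ (hτ1 a)
    have h4 : (τ a ∘ m) ∘ ev = t₀ := by
      rw [← hτ2 a]
      funext i
      have : m (2 * i) = 2 * i := if_pos (by omega)
      show τ a (m (2 * i)) = τ a (2 * i)
      rw [this]
    have h5 := hτu _ _ h3 h4
    show τ (fun _ => a j) 1 = _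
    rw [← h5]
    rfl
  have helem : ∀ {k : ℕ} (φ : L.Formula (Fin k)) (x : Fin k → X), φ.Realize x →
      φ.Realize (f ∘ x) := by
    intro k φ x hx
    let a : ℕ → X := fun i => if h : i < k then x ⟨i, h⟩ else s₀ 0
    have ha : ∀ i : Fin k, a i = x i := fun i => dif_pos i.2
    let ψ : L.Formula (Fin (2 * k)) :=
      φ.relabel (fun i : Fin k => (⟨2 * i.1 + 1, by omega⟩ : Fin (2 * k)))
    have h1 : ψ.Realize (fun i : Fin (2 * k) => jn s₀ a i) := by
      rw [Language.Formula.realize_relabel]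
      have e : (fun i : Fin (2 * k) => jn s₀ a i) ∘
          (fun i : Fin k => (⟨2 * i.1 + 1, by omega⟩ : Fin (2 * k))) = x := by
        funext i
        show jn s₀ a (2 * i.1 + 1) = x i
        rw [jn_odd, ha]
      rw [e]
      exact hx
    have h2 := H2 (jn s₀ a) ψ h1 (τ a) (hτ1 a)
    rw [Language.Formula.realize_relabel] at h2
    have e : (fun i : Fin (2 * k) => τ a i) ∘
        (fun i : Fin k => (⟨2 * i.1 + 1, by omega⟩ : Fin (2 * k))) = f ∘ x := by
      funext i
      show τ a (2 * i.1 + 1) = f (x i)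
      rw [← hf, ha]
    rw [e] at h2
    exact h2
  let F : L.ElementaryEmbedding X Y :=
    { toFun := f
      map_formula' := fun k φ x => by
        constructor
        · intro h1
          by_contra h2
          have h3 := helem φ.not x (by rw [Language.Formula.realize_not]; exact h2)
          rw [Language.Formula.realize_not] at h3
          exact h3 h1
        · exact helem φ x }
  have hfinj : Function.Injective f := F.injective
  refine ⟨⟨F⟩, mk_le_of_injective (f := fun x : X =>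
    (⟨H (jn s₀ (fun _ => x)), Set.mem_range_self _⟩ : Set.range h)) ?_⟩
  intro x x' hxx
  have h1 : H (jn s₀ (fun _ => x)) = H (jn s₀ (fun _ => x')) := congrArg Subtype.val hxx
  have h2 := hτ1 (fun _ => x)
  rw [h1] at h2
  have h3 := hτu _ _ h2 (hτ2 _)
  apply hfinj
  show τ (fun _ => x) 1 = τ (fun _ => x') 1
  rw [h3]

end Pool.Agent.H86.Decon
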