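import Pool.Agent.H86.Decon.Filt

/-!
# Direct limits: filtered diagrams give directed systems
-/

universe u

namespace Pool.Agent.H86.Decon

open CategoryTheory Cardinal

variable {R : Type u} [Ring R]

theorem isoClosed_limClass (C : ModClass R) : IsoClosed (LimClass C) := by
  rintro M N ⟨e⟩ ⟨I, a1, a2, a3, a4, S, f, h1, h2, ⟨e'⟩⟩
  exact ⟨I, a1, a2, a3, a4, S, f, h1, h2, ⟨e.symm.trans e'⟩⟩

theorem limClass_mono {C C' : ModClass R} (h : ∀ M, C M → C' M) {N : ModuleCat.{u} R}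
    (hN : LimClass C N) : LimClass C' N := by
  obtain ⟨I, a1, a2, a3, a4, S, f, h1, h2, h3⟩ := hN
  exact ⟨I, a1, a2, a3, a4, S, f, h1, fun i => h _ (h2 i), h3⟩

/-- description of a direct limit by a cocone -/
theorem limClass_of_cocone {C : ModClass R} (I : Type u) [PartialOrder I]
    [IsDirected I (· ≤ ·)] [Nonempty I]
    (S : I → ModuleCat.{u} R) (f : ∀ i j, i ≤ j → (S i →ₗ[R] S j))
    (hf : DirectedSystem (fun i => S i) (fun i j h => f i j h)) (hC : ∀ i, C (S i))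
    (Q : ModuleCat.{u} R) (g : ∀ i, S i →ₗ[R] Q) (hg : ∀ i j h x, g j (f i j h x) = g i x)
    (hsurj : ∀ x, ∃ i y, g i y = x) (hker : ∀ i y, g i y = 0 → ∃ j, ∃ h : i ≤ j, f i j h y = 0) :
    LimClass C Q := by
  classical
  refine ⟨I, inferInstance, inferInstance, inferInstance, inferInstance, S, f, hf, hC, ?_⟩
  have hbij : Function.Bijective (Module.DirectLimit.lift R I (fun i => S i) f g hg) := by
    constructor
    · rw [injective_iff_map_eq_zero]
      intro z hz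
      obtain ⟨i, x, rfl⟩ := Module.DirectLimit.exists_of z
      rw [Module.DirectLimit.lift_of] at hz
      obtain ⟨j, h, hj⟩ := hker i x hz
      rw [← Module.DirectLimit.of_f (hij := h), hj, map_zero]
    · intro x
      obtain ⟨i, y, rfl⟩ := hsurj x
      exact ⟨Module.DirectLimit.of R I (fun i => S i) f i y, Module.DirectLimit.lift_of _ _ _⟩
  exact ⟨(LinearEquiv.ofBijective _ hbij).symm⟩

theorem limClass_of_filtered {J : Type u} [SmallCategory J] [IsFiltered J]
    (D : J → ModuleCat.{u} R) (mp : ∀ {j k : J}, (j ⟶ k) → (D j →ₗ[R] D k))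
    (mp_id : ∀ (j : J) x, mp (𝟙 j) x = x)
    (mp_comp : ∀ {i j k : J} (f : i ⟶ j) (g : j ⟶ k) x, mp (f ≫ g) x = mp g (mp f x))
    {C : ModClass R} (hC : ∀ j, C (D j)) (Q : ModuleCat.{u} R) (g : ∀ j, D j →ₗ[R] Q)
    (hg : ∀ {j k : J} (f : j ⟶ k) x, g k (mp f x) = g j x)
    (hsurj : ∀ x, ∃ j y, g j y = x)
    (hker : ∀ j y, g j y = 0 → ∃ k, ∃ f : j ⟶ k, mp f y = 0) : LimClass C Q := by
  obtain ⟨I, _, _, _, F, hFin⟩ := IsFiltered.exists_directed J
  have : IsFiltered I := inferInstance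
  obtain ⟨h1, h2⟩ := (Functor.final_iff_of_isFiltered F).1 hFin
  refine limClass_of_cocone I (fun a => D (F.obj a)) (fun a b h => mp (F.map (homOfLE h))) ?_
    (fun a => hC _) Q (fun a => g (F.obj a)) (fun a b h x => hg _ x) ?_ ?_
  · refine { map_self := fun {i} x => ?_, map_map := fun {k j i} hij hjk x => ?_ }
    · have e : F.map (homOfLE (le_refl i)) = 𝟙 (F.obj i) := by
        rw [← F.map_id]
        rfl
      rw [e]
      exact mp_id _ x
    · rw [← mp_comp, ← F.map_comp]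
      rfl
  · intro x
    obtain ⟨j, y, rfl⟩ := hsurj x
    obtain ⟨a, ⟨s⟩⟩ := h1 j
    exact ⟨a, mp s y, hg s y⟩
  · intro a y hy
    obtain ⟨k, s, hs⟩ := hker _ y hy
    obtain ⟨b, ⟨t⟩⟩ := h1 k
    obtain ⟨c, hac, hbc⟩ := exists_ge_ge a b
    obtain ⟨d, v, hv⟩ := h2 (F.map (homOfLE hac)) (s ≫ t ≫ F.map (homOfLE hbc))
    refine ⟨d, hac.trans (leOfHom v), ?_⟩
    have e : F.map (homOfLE (hac.trans (leOfHom v))) = F.map (homOfLE hac) ≫ F.map v := by
      rw [← F.map_comp]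
      rfl
    rw [e, hv, mp_comp, mp_comp, hs, map_zero, map_zero]

end Pool.Agent.H86.Decon
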