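import Pool.Agent.H86.Decon.Germ

/-!
# Pure subfunctors of a germ system
-/

universe u

namespace Pool.Agent.H86.Decon

open CategoryTheory Cardinal

variable {R : Type u} [Ring R]

namespace GermSys

variable {T : Type u} {A : T → ModuleCat.{u} R} {N : ModuleCat.{u} R} (S : GermSys A N)

theorem zero_act {t t' : T} (g : A t' →ₗ[R] A t) : S.act (0 : S.F t) g = 0 := by
  have h := S.act_add (0 : S.F t) 0 g
  rw [add_zero] at h
  exact left_eq_add.1 h

theorem act_zero {t t' : T} (q : S.F t) : S.act q (0 : A t' →ₗ[R] A t) = 0 := by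
  have h := S.act_add' q (0 : A t' →ₗ[R] A t) 0
  rw [add_zero] at h
  exact left_eq_add.1 h

theorem neg_act {t t' : T} (q : S.F t) (g : A t' →ₗ[R] A t) : S.act (-q) g = -S.act q g := by
  have h := S.act_add q (-q) g
  rw [add_neg_cancel, S.zero_act] at h
  exact (neg_eq_of_add_eq_zero_right h.symm).symm

theorem sub_act {t t' : T} (q q' : S.F t) (g : A t' →ₗ[R] A t) :
    S.act (q - q') g = S.act q g - S.act q' g := by
  rw [sub_eq_add_neg, S.act_add, S.neg_act, ← sub_eq_add_neg]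

theorem act_sub {t t' : T} (q : S.F t) (g g' : A t' →ₗ[R] A t) :
    S.act q (g - g') = S.act q g - S.act q g' := by
  have h := S.act_add' q (g - g') g'
  rw [sub_add_cancel] at h
  rw [h, add_sub_cancel_right]

theorem ev_sub {t : T} (q q' : S.F t) (x : A t) : S.ev (q - q') x = S.ev q x - S.ev q' x := by
  have h := S.ev_add (q - q') q'
  rw [sub_add_cancel] at h
  rw [h, LinearMap.add_apply, add_sub_cancel_right]

theorem ev_zero {t : T} (x : A t) : S.ev (0 : S.F t) x = 0 := by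
  have h := S.ev_sub (0 : S.F t) 0 x
  rw [sub_zero, sub_self] at h
  exact h

/-- subfunctors -/
structure IsSub (G : ∀ t, Set (S.F t)) : Prop where
  zero : ∀ t, (0 : S.F t) ∈ G t
  add : ∀ {t} (q q' : S.F t), q ∈ G t → q' ∈ G t → q + q' ∈ G t
  neg : ∀ {t} (q : S.F t), q ∈ G t → -q ∈ G t
  act : ∀ {t t'} (q : S.F t) (g : A t' →ₗ[R] A t), q ∈ G t → S.act q g ∈ G t'

/-- pure subfunctors -/
structure IsPure (G : ∀ t, Set (S.F t)) : Prop extends S.IsSub G where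
  pure : ∀ {t t'} (q : S.F t) (g : A t' →ₗ[R] A t), S.act q g ∈ G t' →
    ∃ q₀ ∈ G t, S.act q₀ g = S.act q g

variable {S}

theorem IsSub.sub {G : ∀ t, Set (S.F t)} (h : S.IsSub G) {t : T} {q q' : S.F t} (h1 : q ∈ G t)
    (h2 : q' ∈ G t) : q - q' ∈ G t := by
  rw [sub_eq_add_neg]
  exact h.add _ _ h1 (h.neg _ h2)

theorem IsPure.quot {G : ∀ t, Set (S.F t)} (h : S.IsPure G) {t t' : T} (q : S.F t)
    (g : A t' →ₗ[R] A t) (hq : S.act q g ∈ G t') :
    ∃ (t'' : T) (q' : S.F t'') (k : A t →ₗ[R] A t''), q - S.act q' k ∈ G t ∧ k.comp g = 0 := by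
  obtain ⟨q₀, h0, h1⟩ := h.pure q g hq
  obtain ⟨t'', q', k, h2, h3⟩ := S.ir2 (q - q₀) g (by rw [S.sub_act, h1, sub_self])
  refine ⟨t'', q', k, ?_, h3⟩
  rw [← h2]
  simpa using h0

theorem IsPure.pair {G : ∀ t, Set (S.F t)} (h : S.IsPure G) {t₁ t₂ : T} {q₁ : S.F t₁}
    {q₂ : S.F t₂} (h1 : q₁ ∈ G t₁) (h2 : q₂ ∈ G t₂) :
    ∃ (t : T) (q : S.F t) (g₁ : A t₁ →ₗ[R] A t) (g₂ : A t₂ →ₗ[R] A t),
      q ∈ G t ∧ q₁ = S.act q g₁ ∧ q₂ = S.act q g₂ := by
  obtain ⟨t, p, a, b, rfl, rfl⟩ := S.ir1 q₁ q₂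
  obtain ⟨p₀, hp₀, e1⟩ := h.pure p a h1
  obtain ⟨t', p', k, e2, e3⟩ := S.ir2 (p - p₀) a (by rw [S.sub_act, e1, sub_self])
  have e4 : S.act p' (k.comp b) ∈ G t₂ := by
    rw [← S.act_comp, ← e2, S.sub_act]
    exact h.sub h2 (h.act _ _ hp₀)
  obtain ⟨p₁, hp₁, e5⟩ := h.pure p' (k.comp b) e4
  refine ⟨t, p₀ + S.act p₁ k, a, b, h.add _ _ hp₀ (h.act _ _ hp₁), ?_, ?_⟩
  · rw [S.act_add, S.act_comp, e3, S.act_zero, add_zero, e1]
  · rw [S.act_add, S.act_comp, e5, ← S.act_comp, ← e2, S.sub_act]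
    abel

theorem IsPure.rel {G G' : ∀ t, Set (S.F t)} (hG' : S.IsPure G')
    (hle : G ≤ G') {t t' : T} {q : S.F t} {q' : S.F t'} {k : A t →ₗ[R] A t'} (hq : q ∈ G' t)
    (h : q - S.act q' k ∈ G t) : ∃ q₀ ∈ G' t', q - S.act q₀ k ∈ G t := by
  have h1 : S.act q' k ∈ G' t := by
    have := hG'.sub hq (hle t h)
    simpa using this
  obtain ⟨q₀, h2, h3⟩ := hG'.pure q' k h1
  exact ⟨q₀, h2, by rw [h3]; exact h⟩

variable (S)

/-- the submodule of `N` given by a subfunctor -/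
def sp (G : ∀ t, Set (S.F t)) : Submodule R N :=
  Submodule.span R {n | ∃ (t : T) (q : S.F t) (x : A t), q ∈ G t ∧ S.ev q x = n}

theorem sp_mono : Monotone S.sp := by
  intro G G' h
  apply Submodule.span_mono
  rintro n ⟨t, q, x, hq, rfl⟩
  exact ⟨t, q, x, h t hq, rfl⟩

variable {S}

theorem mem_sp {G : ∀ t, Set (S.F t)} (h : S.IsPure G) {n : N} :
    n ∈ S.sp G ↔ ∃ (t : T) (q : S.F t) (x : A t), q ∈ G t ∧ S.ev q x = n := by
  constructor
  · intro hn
    induction hn using Submodule.span_induction with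
    | mem n hn => exact hn
    | zero =>
      obtain ⟨t, _, _, _⟩ := S.surj 0
      exact ⟨t, 0, 0, h.zero t, by simp⟩
    | add n n' _ _ ih ih' =>
      obtain ⟨t, q, x, hq, rfl⟩ := ih
      obtain ⟨t', q', x', hq', rfl⟩ := ih'
      obtain ⟨r, p, a, b, hp, rfl, rfl⟩ := h.pair hq hq'
      exact ⟨r, p, a x + b x', hp, by rw [map_add, S.ev_act, S.ev_act]⟩
    | smul c n _ ih =>
      obtain ⟨t, q, x, hq, rfl⟩ := ih
      exact ⟨t, q, c • x, hq, by rw [map_smul]⟩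
  · intro hn
    exact Submodule.subset_span hn

theorem ker_sp {G : ∀ t, Set (S.F t)} (h : S.IsPure G) {t : T} (q : S.F t) (x : A t)
    (hx : S.ev q x ∈ S.sp G) : ∃ (t' : T) (q' : S.F t') (k : A t →ₗ[R] A t'),
      q - S.act q' k ∈ G t ∧ k x = 0 := by
  obtain ⟨t₁, γ, y, hγ, hy⟩ := (mem_sp h).1 hx
  obtain ⟨r, p, a, b, ea, eb⟩ := S.ir1 q γ
  have h1 : S.ev p (a x - b y) = 0 := by
    rw [map_sub, ← S.ev_act, ← S.ev_act, ← ea, ← eb, hy, sub_self]
  obtain ⟨r', p', c, ec, hc⟩ := S.ker p _ h1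
  have h2 : S.act p' (c.comp b) ∈ G t₁ := by
    rw [← S.act_comp, ← ec, ← eb]; exact hγ
  obtain ⟨t', q', k, h3, h4⟩ := h.quot p' (c.comp b) h2
  refine ⟨t', q', k.comp (c.comp a), ?_, ?_⟩
  · have e : q = S.act p' (c.comp a) := by rw [← S.act_comp, ← ec, ← ea]
    have h5 := h.act _ (c.comp a) h3
    rw [S.sub_act, S.act_comp] at h5
    rw [e]
    exact h5
  · have h5 : c (a x) = c (b y) := by
      rw [map_sub, sub_eq_zero] at hc
      exact hc
    show k (c (a x)) = 0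
    rw [h5]
    exact LinearMap.congr_fun h4 y

section Elts

variable (S)

/-- the objects of the category of elements of `G' / G` -/
structure Elts (G G' : ∀ t, Set (S.F t)) : Type u where
  t : T
  q : S.F t
  mem : q ∈ G' t

variable {S}

/-- the category of elements of `G' / G` -/
@[reducible] def eltsCat {G G' : ∀ t, Set (S.F t)} (h : S.IsPure G) :
    SmallCategory (Elts S G G') where
  Hom e e' := {k : A e.t →ₗ[R] A e'.t // e.q - S.act e'.q k ∈ G e.t}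
  id e := ⟨LinearMap.id, by rw [S.act_id, sub_self]; exact h.zero _⟩
  comp {e e' e''} k l := ⟨l.1.comp k.1, by
    have h1 := h.add _ _ k.2 (h.act _ k.1 l.2)
    rw [S.sub_act, S.act_comp] at h1
    simpa using h1⟩
  id_comp k := Subtype.ext (LinearMap.comp_id _)
  comp_id k := Subtype.ext (LinearMap.id_comp _)
  assoc k l m := Subtype.ext (LinearMap.comp_assoc _ _ _).symm

theorem limClass_quot {G G' : ∀ t, Set (S.F t)} (hG : S.IsPure G) (hG' : S.IsPure G')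
    (hle : G ≤ G') : Fac (LimClass fun M => ∃ t, Nonempty (M ≃ₗ[R] A t)) (S.sp G) (S.sp G') := by
  let _ : SmallCategory (Elts S G G') := eltsCat hG
  have : IsFiltered (Elts S G G') :=
    { nonempty := by
        obtain ⟨t, _, _, _⟩ := S.surj 0
        exact ⟨⟨t, 0, hG'.zero t⟩⟩
      cocone_objs := fun e e' => by
        obtain ⟨t, q, a, b, h1, h2, h3⟩ := hG'.pair e.mem e'.mem
        refine ⟨⟨t, q, h1⟩, ⟨a, ?_⟩, ⟨b, ?_⟩, trivial⟩
        · show e.q - S.act q a ∈ G e.t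
          rw [h2, sub_self]; exact hG.zero _
        · show e'.q - S.act q b ∈ G e'.t
          rw [h3, sub_self]; exact hG.zero _
      cocone_maps := fun e e' k l => by
        have h1 : S.act e'.q (k.1 - l.1) ∈ G e.t := by
          rw [S.act_sub]
          have := hG.sub l.2 k.2
          simpa using this
        obtain ⟨t'', q', m, h2, h3⟩ := hG.quot e'.q (k.1 - l.1) h1
        obtain ⟨q₀, h4, h5⟩ := hG'.rel hle e'.mem h2
        refine ⟨⟨t'', q₀, h4⟩, ⟨m, h5⟩, ?_⟩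
        apply Subtype.ext
        show m.comp k.1 = m.comp l.1
        rw [LinearMap.comp_sub, sub_eq_zero] at h3
        exact h3 }
  refine limClass_of_filtered (J := Elts S G G') (fun e => A e.t)
    (fun {e e'} k => Subtype.val (p := fun k : A e.t →ₗ[R] A e'.t => e.q - S.act e'.q k ∈ G e.t) k)
    (fun e x => rfl) (fun k l x => rfl) (fun e => ⟨e.t, ⟨LinearEquiv.refl R _⟩⟩)
    (ModuleCat.of R (S.sp G' ⧸ (S.sp G).submoduleOf (S.sp G')))
    (fun e => ((S.sp G).submoduleOf (S.sp G')).mkQ.comp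
      ((S.ev e.q).codRestrict (S.sp G') (fun x => (mem_sp hG').2 ⟨e.t, e.q, x, e.mem, rfl⟩)))
    ?_ ?_ ?_
  · intro e e' k x
    show Submodule.Quotient.mk _ = Submodule.Quotient.mk _
    rw [Submodule.Quotient.eq]
    show S.ev e'.q (k.1 x) - S.ev e.q x ∈ S.sp G
    rw [← S.ev_act, ← S.ev_sub]
    refine (mem_sp hG).2 ⟨e.t, _, x, ?_, rfl⟩
    have := hG.neg _ k.2
    simpa using this
  · intro z
    obtain ⟨⟨n, hn⟩, rfl⟩ := Submodule.Quotient.mk_surjective _ z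
    obtain ⟨t, q, x, hq, rfl⟩ := (mem_sp hG').1 hn
    exact ⟨⟨t, q, hq⟩, x, rfl⟩
  · intro e x hx
    have h1 : S.ev e.q x ∈ S.sp G := by
      have h2 : Submodule.Quotient.mk (p := (S.sp G).submoduleOf (S.sp G'))
        ⟨S.ev e.q x, (mem_sp hG').2 ⟨e.t, e.q, x, e.mem, rfl⟩⟩ = 0 := hx
      rw [Submodule.Quotient.mk_eq_zero] at h2
      exact h2
    obtain ⟨t', q', k, h3, h4⟩ := ker_sp hG e.q x h1
    obtain ⟨q₀, h5, h6⟩ := hG'.rel hle e.mem h3
    exact ⟨⟨t', q₀, h5⟩, ⟨k, h6⟩, h4⟩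

end Elts

end GermSys

end Pool.Agent.H86.Decon
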