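import Pool.Agent.H86.Decon.Small

/-!
# A class in which small subsets lie in small members has a deconstructible limit closure
-/

universe u

namespace Pool.Agent.H86.Decon

open CategoryTheory Cardinal

variable {R : Type u} [Ring R]

theorem HasFiltration.mono {A A' : ModClass R} (h : ∀ M, A M → A' M) {M : ModuleCat.{u} R}
    (hM : HasFiltration A M) : HasFiltration A' M := by
  obtain ⟨σ, F, h1, h2, h3, h4, h5⟩ := hM
  exact ⟨σ, F, h1, h2, h3, h4, fun α hα => h _ (h5 α hα)⟩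

/-- every subset of cardinality less than `κ` of a member of `C` lies in a submodule of
cardinality less than `κ` which belongs to `C` -/
def SmallSub (κ : Cardinal.{u}) (C : ModClass R) : Prop :=
  ∀ M, C M → ∀ X : Set M, #X < κ → ∃ P : Submodule R M, X ⊆ P ∧ #P < κ ∧ C (ModuleCat.of R P)

/-- pairs of an index and a small submodule -/
structure SubPair {I : Type u} (S : I → ModuleCat.{u} R) (κ : Cardinal.{u}) (C : ModClass R) :
    Type u where
  i : I
  P : Submodule R (S i)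
  card : #P < κ
  mem : C (ModuleCat.of R P)

theorem limClass_small {C : ModClass R} {κ : Cardinal.{u}} (hκ : ℵ₀ ≤ κ)
    (hP : SmallSub κ C) {N : ModuleCat.{u} R} (hN : LimClass C N) :
    LimClass (fun M => C M ∧ #M < κ) N := by
  obtain ⟨I, _, _, _, S, f, c, hf, hC, hc, hsurj, hker⟩ := exists_cocone hN
  let J : Type u := SubPair S κ C
  let pre : Preorder J :=
    { le := fun a b => ∃ h : a.i ≤ b.i, ∀ x ∈ a.P, f a.i b.i h x ∈ b.P
      le_refl := fun a => ⟨le_rfl, fun x hx => by rw [hf.map_self]; exact hx⟩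
      le_trans := fun a b d hab hbd => ⟨hab.1.trans hbd.1, fun x hx => by
        have := hf.map_map hab.1 hbd.1 x
        rw [← this]
        exact hbd.2 _ (hab.2 x hx)⟩ }
  have hdir : IsDirected J (· ≤ ·) := ⟨fun a b => by
    obtain ⟨k, hak, hbk⟩ := exists_ge_ge a.i b.i
    let X : Set (S k) := (f _ _ hak '' a.P) ∪ (f _ _ hbk '' b.P)
    have hX : #X < κ := by
      refine (mk_union_le _ _).trans_lt (add_lt_of_lt hκ ?_ ?_)
      · exact mk_image_le.trans_lt a.card
      · exact mk_image_le.trans_lt b.card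
    obtain ⟨P, h1, h2, h3⟩ := hP _ (hC k) X hX
    exact ⟨⟨k, P, h2, h3⟩, ⟨hak, fun x hx => h1 (Or.inl ⟨x, hx, rfl⟩)⟩,
      ⟨hbk, fun x hx => h1 (Or.inr ⟨x, hx, rfl⟩)⟩⟩⟩
  have hne : Nonempty J := by
    obtain ⟨i⟩ := (inferInstance : Nonempty I)
    obtain ⟨P, h1, h2, h3⟩ := hP _ (hC i) ∅ (by simpa using aleph0_pos.trans_le hκ)
    exact ⟨⟨i, P, h2, h3⟩⟩
  refine limClass_of_filtered (J := J) (fun a => ModuleCat.of R a.P)
    (fun {a b} h => ((f a.i b.i (leOfHom h).1).comp a.P.subtype).codRestrict b.P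
      (fun x => (leOfHom h).2 x x.2)) ?_ ?_ ?_ N (fun a => (c a.i).comp a.P.subtype) ?_ ?_ ?_
  · intro a x
    apply Subtype.ext
    exact hf.map_self _
  · intro a b d h h' x
    apply Subtype.ext
    exact (hf.map_map _ _ _).symm
  · intro a
    exact ⟨a.mem, a.card⟩
  · intro a b h x
    exact hc _ _ _ _
  · intro x
    obtain ⟨i, y, rfl⟩ := hsurj x
    obtain ⟨P, h1, h2, h3⟩ := hP _ (hC i) {y} (by simpa using one_lt_aleph0.trans_le hκ)
    exact ⟨⟨i, P, h2, h3⟩, ⟨y, h1 rfl⟩, rfl⟩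
  · intro a y hy
    obtain ⟨j, hj, h⟩ := hker a.i y hy
    obtain ⟨P, h1, h2, h3⟩ := hP _ (hC j) (f _ _ hj '' a.P) (mk_image_le.trans_lt a.card)
    refine ⟨⟨j, P, h2, h3⟩, homOfLE ⟨hj, fun x hx => h1 ⟨x, hx, rfl⟩⟩, ?_⟩
    exact Subtype.ext h

/-- the modules of cardinality less than `κ` in `C` form a small class up to isomorphism -/
theorem exists_small_family {C : ModClass R} (hC : IsoClosed C) (κ : Cardinal.{u}) :
    ∃ (T : Type u) (A : T → ModuleCat.{u} R), (∀ t, C (A t)) ∧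
      ∀ M, C M → #M < κ → ∃ t, Nonempty (M ≃ₗ[R] A t) := by
  let T : Type u := Σ (X : Set κ.out) (g : AddCommGroup X),
    {m : Module R X // C (@ModuleCat.of R _ X g m)}
  refine ⟨T, fun t => @ModuleCat.of R _ t.1 t.2.1 t.2.2.1, fun t => t.2.2.2, ?_⟩
  intro M hM hlt
  have h1 : #M ≤ #κ.out := by rw [mk_out]; exact hlt.le
  obtain ⟨e⟩ := h1
  let X : Set κ.out := Set.range e
  let e' : X ≃ M := (Equiv.ofInjective e e.injective).symm
  let g : AddCommGroup X := e'.addCommGroup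
  let m : Module R X := Equiv.module R e'
  let l : X ≃ₗ[R] M := Equiv.linearEquiv R e'
  exact ⟨⟨X, g, m, hC M (ModuleCat.of R X) ⟨l.symm⟩ hM⟩, ⟨l.symm⟩⟩

theorem deconstructible_limClass_of_smallSub {C : ModClass R} (hC : IsoClosed C)
    {κ : Cardinal.{u}} (hκ : ℵ₀ ≤ κ) (hP : SmallSub κ C) : Deconstructible (LimClass C) := by
  obtain ⟨T, A, h1, h2⟩ := exists_small_family hC κ
  obtain ⟨μ, hμ, h3⟩ := deconstructible_limClass_of_small A
  refine ⟨μ, hμ, ?_⟩
  intro N hN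
  have h4 : LimClass (fun M : ModuleCat.{u} R => ∃ t, Nonempty (M ≃ₗ[R] A t)) N :=
    limClass_mono (fun M hM => h2 M hM.1 hM.2) (limClass_small hκ hP hN)
  refine (h3 N h4).mono ?_
  rintro Z ⟨h5, h6⟩
  refine ⟨limClass_mono ?_ h5, h6⟩
  rintro M ⟨t, ⟨e⟩⟩
  exact hC _ _ ⟨e.symm⟩ (h1 t)

end Pool.Agent.H86.Decon
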