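import Pool.Agent.H86.Decon.Hom
import Pool.Agent.H86.Decon.FiltFilt

/-!
# Modules over a free algebra given by operators
-/

universe u

namespace Pool.Agent.H86.Decon

open Cardinal FirstOrder

/-- operator symbols: reindexings and formulas -/
inductive Ops (L : FirstOrder.Language.{u, u}) : Type u
  | pl (m : ℕ → ℕ) : Ops L
  | sl (n : ℕ) (φ : L.Formula (Fin n)) : Ops L

variable {Op : Type u}

/-- the ring with the operators in `Op` and one more operator -/
abbrev Rg (Op : Type u) : Type u := FreeAlgebra ℤ (Option Op)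

/-- the generators of the ring -/
abbrev gen (o : Option Op) : Rg Op := FreeAlgebra.ι ℤ o

/-- the module structure given by operators -/
@[reducible] noncomputable def opModule (V : Type u) [AddCommGroup V]
    (f : Option Op → (V →+ V)) : Module (Rg Op) V :=
  Module.compHom V (FreeAlgebra.lift ℤ
    (fun o => ((f o).toIntLinearMap : Module.End ℤ V))).toRingHom

theorem gen_smul {V : Type u} [AddCommGroup V] (f : Option Op → (V →+ V)) (o : Option Op)
    (v : V) : (letI := opModule V f; gen o • v) = f o v := by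
  show (FreeAlgebra.lift ℤ (fun o => ((f o).toIntLinearMap : Module.End ℤ V)) (gen o)) v = f o v
  rw [FreeAlgebra.lift_ι_apply]
  rfl

/-- additive maps commuting with the generators are linear -/
def mkLin {V V' : Type u} [AddCommGroup V] [AddCommGroup V'] [Module (Rg Op) V]
    [Module (Rg Op) V'] (g : V →+ V') (hg : ∀ (o : Option Op) v, g ((gen o : Rg Op) • v) = (gen o : Rg Op) • g v) :
    V →ₗ[Rg Op] V' where
  toFun := g
  map_add' := map_add g
  map_smul' := by
    intro r v
    simp only [RingHom.id_apply]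
    induction r using FreeAlgebra.induction generalizing v with
    | grade0 z =>
      have h1 : ∀ (W : Type u) [AddCommGroup W] [Module (Rg Op) W] (w : W),
          (algebraMap ℤ (Rg Op) z) • w = z • w := by
        intro W _ _ w
        rw [eq_intCast (algebraMap ℤ (Rg Op)) z, Int.cast_smul_eq_zsmul]
      rw [h1, h1, map_zsmul]
    | grade1 o => exact hg o v
    | mul a b ha hb => rw [mul_smul, mul_smul, ha, hb]
    | add a b ha hb => rw [add_smul, add_smul, map_add, ha, hb]

/-- subgroups closed under the generators are submodules -/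
def mkSub {V : Type u} [AddCommGroup V] [Module (Rg Op) V] (S : AddSubgroup V)
    (hS : ∀ o, ∀ v ∈ S, (gen o : Rg Op) • v ∈ S) : Submodule (Rg Op) V where
  carrier := S
  add_mem' := S.add_mem
  zero_mem' := S.zero_mem
  smul_mem' := by
    intro r v hv
    show r • v ∈ S
    induction r using FreeAlgebra.induction generalizing v with
    | grade0 z =>
      rw [eq_intCast (algebraMap ℤ (Rg Op)) z, Int.cast_smul_eq_zsmul]
      exact S.zsmul_mem hv z
    | grade1 o => exact hS o v hv
    | mul a b ha hb => rw [mul_smul]; exact ha (hb hv)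
    | add a b ha hb => rw [add_smul]; exact S.add_mem (ha hv) (hb hv)

/-! ### The modules `T₂(U)` -/

/-- two copies of `U`; the extra operator is the shift -/
def T2 (U : Type u) : Type u := U × U

instance (U : Type u) [AddCommGroup U] : AddCommGroup (T2 U) := inferInstanceAs (AddCommGroup (U × U))

section

variable {U : Type u} [AddCommGroup U] [Module (Rg Op) U]

/-- the operators on `T₂(U)` -/
def opT2 (U : Type u) [AddCommGroup U] [Module (Rg Op) U] : Option Op → (T2 U →+ T2 U)
  | none => AddMonoidHom.mk' (fun v : T2 U => ((0, v.1) : U × U)) (fun v w => by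
      refine Prod.ext ?_ rfl
      exact (add_zero (0 : U)).symm)
  | some o => AddMonoidHom.mk' (fun v : T2 U => ((gen (some o) • v.1, gen (some o) • v.2) : U × U))
      (fun v w => Prod.ext (smul_add _ _ _) (smul_add _ _ _))

noncomputable instance instT2 : Module (Rg Op) (T2 U) := opModule (T2 U) (opT2 U)

theorem T2_none (v : T2 U) : (gen none : Rg Op) • v = ((0, v.1) : U × U) :=
  gen_smul (opT2 U) none v

theorem T2_some (o : Op) (v : T2 U) : (gen (some o) : Rg Op) • v =
    (((gen (some o) : Rg Op) • v.1, (gen (some o) : Rg Op) • v.2) : U × U) :=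
  gen_smul (opT2 U) (some o) v

end

/-! ### The modules `T₃(U) ⊕ T₁(U)` -/

/-- the module `T₃(U) ⊕ T₁(U)`: the extra operator maps `(a, b, c, d)` to `(0, a, b, 0)` -/
def T31 (U : Type u) : Type u := U × U × U × U

instance (U : Type u) [AddCommGroup U] : AddCommGroup (T31 U) :=
  inferInstanceAs (AddCommGroup (U × U × U × U))

section

variable {U : Type u} [AddCommGroup U] [Module (Rg Op) U]

/-- the operators on `T₃(U) ⊕ T₁(U)` -/
def opT31 (U : Type u) [AddCommGroup U] [Module (Rg Op) U] : Option Op → (T31 U →+ T31 U)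
  | none => AddMonoidHom.mk' (fun v : T31 U => ((0, v.1, v.2.1, 0) : U × U × U × U)) (fun v w => by
      refine Prod.ext ?_ (Prod.ext rfl (Prod.ext rfl ?_))
      · exact (add_zero (0 : U)).symm
      · exact (add_zero (0 : U)).symm)
  | some o => AddMonoidHom.mk' (fun v : T31 U => ((gen (some o) • v.1, gen (some o) • v.2.1,
      gen (some o) • v.2.2.1, gen (some o) • v.2.2.2) : U × U × U × U))
      (fun v w => Prod.ext (smul_add _ _ _) (Prod.ext (smul_add _ _ _)
        (Prod.ext (smul_add _ _ _) (smul_add _ _ _))))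

noncomputable instance instT31 : Module (Rg Op) (T31 U) := opModule (T31 U) (opT31 U)

theorem T31_none (v : T31 U) : (gen none : Rg Op) • v = ((0, v.1, v.2.1, 0) : U × U × U × U) :=
  gen_smul (opT31 U) none v

theorem T31_some (o : Op) (v : T31 U) : (gen (some o) : Rg Op) • v =
    (((gen (some o) : Rg Op) • v.1, (gen (some o) : Rg Op) • v.2.1,
      (gen (some o) : Rg Op) • v.2.2.1, (gen (some o) : Rg Op) • v.2.2.2) : U × U × U × U) :=
  gen_smul (opT31 U) (some o) v

end

/-! ### Filtrations -/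

/-- modules `T₂(U)` with `U` small -/
def T2Class (ν : Cardinal.{u}) : ModClass (Rg Op) := fun M =>
  ∃ U : ModuleCat.{u} (Rg Op), #U ≤ ν ∧ Nonempty (M ≃ₗ[Rg Op] T2 U)

theorem isoClosed_T2Class (ν : Cardinal.{u}) : IsoClosed (T2Class (Op := Op) ν) := by
  rintro M N ⟨e⟩ ⟨U, hU, ⟨e'⟩⟩
  exact ⟨U, hU, ⟨e.symm.trans e'⟩⟩

section

variable {U : Type u} [AddCommGroup U] [Module (Rg Op) U]

/-- the submodule `T₂(V)` of `T₂(U)` -/
noncomputable def T2sub (V : Submodule (Rg Op) U) : Submodule (Rg Op) (T2 U) :=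
  mkSub { carrier := {v | v.1 ∈ V ∧ v.2 ∈ V}
          add_mem' := fun h h' => ⟨V.add_mem h.1 h'.1, V.add_mem h.2 h'.2⟩
          zero_mem' := ⟨V.zero_mem, V.zero_mem⟩
          neg_mem' := fun h => ⟨V.neg_mem h.1, V.neg_mem h.2⟩ } (by
    rintro (_ | o) v ⟨h1, h2⟩
    · rw [T2_none]
      exact ⟨V.zero_mem, h1⟩
    · rw [T2_some]
      exact ⟨V.smul_mem _ h1, V.smul_mem _ h2⟩)

theorem mem_T2sub {V : Submodule (Rg Op) U} {v : T2 U} :
    v ∈ T2sub V ↔ v.1 ∈ V ∧ v.2 ∈ V := Iff.rfl

/-- `T₂(U)` is filtered by the modules `T₂(Z)`, `Z` cyclic -/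
theorem hasFiltration_T2 {ν : Cardinal.{u}} (hν : #(Rg Op) ≤ ν) :
    HasFiltration (T2Class ν) (ModuleCat.of (Rg Op) (T2 U)) := by
  refine hasFiltration_of_step (G := Submodule (Rg Op) U) Set.univ
    (fun V => (T2sub V : Submodule (Rg Op) (T2 U))) ?_ ⊥ trivial ?_ ?_
    (fun _ _ _ _ => trivial) ?_ ?_
  · intro V V' h v hv
    exact ⟨h hv.1, h hv.2⟩
  · rw [eq_bot_iff]
    intro v hv
    obtain ⟨h1, h2⟩ := mem_T2sub.1 hv
    exact (Submodule.mem_bot _).2 (Prod.ext ((Submodule.mem_bot _).1 h1)
      ((Submodule.mem_bot _).1 h2))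
  · rw [eq_top_iff]
    intro v _
    exact mem_T2sub.2 ⟨Submodule.mem_top, Submodule.mem_top⟩
  · intro c _ hc hne v hv
    obtain ⟨h1, h2⟩ := mem_T2sub.1 hv
    have hdir : DirectedOn (· ≤ ·) c := hc.directedOn
    obtain ⟨V, hV, h3⟩ := (Submodule.mem_sSup_of_directed hne hdir).1 h1
    obtain ⟨V', hV', h4⟩ := (Submodule.mem_sSup_of_directed hne hdir).1 h2
    rcases hc.total hV hV' with h | h
    · exact ⟨V', hV', mem_T2sub.2 ⟨h h3, h4⟩⟩
    · exact ⟨V, hV, mem_T2sub.2 ⟨h3, h h4⟩⟩
  · intro V _ hne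
    obtain ⟨w, hw⟩ : ∃ w, w ∉ V := by
      by_contra hcon
      push Not at hcon
      exact hne (eq_top_iff.2 fun w _ => hcon w)
    let V' : Submodule (Rg Op) U := V ⊔ Submodule.span (Rg Op) {w}
    have hwV' : w ∈ V' := (le_sup_right : _ ≤ V') (Submodule.mem_span_singleton_self w)
    have hlt : V < V' := lt_of_le_of_ne le_sup_left (fun h => hw (by rw [h]; exact hwV'))
    refine ⟨V', trivial, hlt, ?_⟩
    let Q : Type u := V' ⧸ V.submoduleOf V'
    have hQ : #Q ≤ ν := by
      refine le_trans (mk_le_of_surjective (f := fun r : Rg Op =>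
        (Submodule.Quotient.mk (r • ⟨w, hwV'⟩) : Q)) ?_) hν
      intro z
      obtain ⟨⟨z, hz⟩, rfl⟩ := Submodule.Quotient.mk_surjective _ z
      obtain ⟨a, ha, b, hb, rfl⟩ := Submodule.mem_sup.1 hz
      obtain ⟨r, rfl⟩ := Submodule.mem_span_singleton.1 hb
      refine ⟨r, ?_⟩
      show Submodule.Quotient.mk _ = Submodule.Quotient.mk _
      rw [Submodule.Quotient.eq]
      show r • w - (a + r • w) ∈ V
      have : r • w - (a + r • w) = -a := by abel
      rw [this]
      exact V.neg_mem ha
    let q : V' →ₗ[Rg Op] Q := (V.submoduleOf V').mkQ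
    have hq0 : ∀ z : V', q z = 0 ↔ (z : U) ∈ V := by
      intro z
      show Submodule.Quotient.mk _ = 0 ↔ _
      rw [Submodule.Quotient.mk_eq_zero]
      rfl
    let g : (T2sub V' : Submodule (Rg Op) (T2 U)) →+ T2 Q :=
      AddMonoidHom.mk' (fun v => ((q ⟨v.1.1, v.2.1⟩, q ⟨v.1.2, v.2.2⟩) : Q × Q)) (fun v w =>
        Prod.ext (map_add q ⟨v.1.1, v.2.1⟩ ⟨w.1.1, w.2.1⟩)
          (map_add q ⟨v.1.2, v.2.2⟩ ⟨w.1.2, w.2.2⟩))
    have hg : ∀ (o : Option Op) (v : (T2sub V' : Submodule (Rg Op) (T2 U))),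
        g (gen o • v) = gen o • g v := by
      rintro (_ | o) v
      · rw [T2_none]
        have e : ((gen none : Rg Op) • v).1 = ((0, v.1.1) : U × U) := T2_none v.1
        refine Prod.ext ?_ ?_
        · show q ⟨((gen none : Rg Op) • v).1.1, _⟩ = 0
          rw [hq0]
          show ((gen none : Rg Op) • v).1.1 ∈ V
          rw [e]
          exact V.zero_mem
        · show q ⟨((gen none : Rg Op) • v).1.2, _⟩ = q ⟨v.1.1, v.2.1⟩
          congr 1
          apply Subtype.ext
          show ((gen none : Rg Op) • v).1.2 = v.1.1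
          rw [e]
      · rw [T2_some]
        have e : ((gen (some o) : Rg Op) • v).1 =
          ((gen (some o) • v.1.1, gen (some o) • v.1.2) : U × U) := T2_some o v.1
        refine Prod.ext ?_ ?_
        · show q ⟨((gen (some o) : Rg Op) • v).1.1, _⟩ = gen (some o) • q ⟨v.1.1, v.2.1⟩
          rw [← map_smul]
          congr 1
          apply Subtype.ext
          show ((gen (some o) : Rg Op) • v).1.1 = gen (some o) • v.1.1
          rw [e]
        · show q ⟨((gen (some o) : Rg Op) • v).1.2, _⟩ = gen (some o) • q ⟨v.1.2, v.2.2⟩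
          rw [← map_smul]
          congr 1
          apply Subtype.ext
          show ((gen (some o) : Rg Op) • v).1.2 = gen (some o) • v.1.2
          rw [e]
    refine fac_of_surj (Z := T2 Q) (isoClosed_T2Class ν)
      ⟨ModuleCat.of (Rg Op) Q, hQ, ⟨LinearEquiv.refl _ _⟩⟩ (mkLin g hg) ?_ ?_
    · rintro ⟨a, b⟩
      obtain ⟨a, rfl⟩ := Submodule.Quotient.mk_surjective _ a
      obtain ⟨b, rfl⟩ := Submodule.Quotient.mk_surjective _ b
      exact ⟨⟨((a.1, b.1) : U × U), a.2, b.2⟩, rfl⟩
    · intro v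
      constructor
      · intro h
        have h1 : g v = 0 := h
        exact mem_T2sub.2 ⟨(hq0 _).1 (congrArg Prod.fst h1), (hq0 _).1 (congrArg Prod.snd h1)⟩
      · intro h
        obtain ⟨h1, h2⟩ := mem_T2sub.1 h
        exact Prod.ext ((hq0 ⟨v.1.1, v.2.1⟩).2 h1) ((hq0 ⟨v.1.2, v.2.2⟩).2 h2)

end

end Pool.Agent.H86.Decon
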