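import Pool.Agent.H86.Decon.Pure

/-!
# The limit closure of a small class is deconstructible
-/

universe u

namespace Pool.Agent.H86.Decon

open CategoryTheory Cardinal

theorem exists_closed {E J : Type u} (op : J → E → E → E) (X : Set E) (ν : Cardinal.{u})
    (hν : ℵ₀ ≤ ν) (hJ : #J ≤ ν) (hX : #X ≤ ν) :
    ∃ K : Set E, X ⊆ K ∧ #K ≤ ν ∧ ∀ j a b, a ∈ K → b ∈ K → op j a b ∈ K := by
  let st : Set E → Set E := fun Y => Y ∪ Set.range (fun z : J × Y × Y => op z.1 z.2.1 z.2.2)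
  have hst : ∀ Y : Set E, #Y ≤ ν → #(st Y) ≤ ν := by
    intro Y hY
    refine (mk_union_le _ _).trans ?_
    refine (add_le_add hY mk_range_le).trans ?_
    have : #(J × Y × Y) ≤ ν := by
      have e : #(J × Y × Y) = #J * (#Y * #Y) := by simp
      rw [e]
      calc #J * (#Y * #Y) ≤ ν * (ν * ν) := mul_le_mul' hJ (mul_le_mul' hY hY)
        _ = ν := by rw [mul_eq_self hν, mul_eq_self hν]
    calc ν + #(J × Y × Y) ≤ ν + ν := add_le_add le_rfl this
      _ = ν := add_eq_self hν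
  let K : ℕ → Set E := fun n => st^[n] X
  have hK : ∀ n, K (n + 1) = st (K n) := fun n => Function.iterate_succ_apply' st n X
  have hcard : ∀ n, #(K n) ≤ ν := by
    intro n
    induction n with
    | zero => exact hX
    | succ n ih => rw [hK n]; exact hst _ ih
  have hmono : Monotone K := by
    apply monotone_nat_of_le_succ
    intro n
    rw [hK n]
    exact Set.subset_union_left
  refine ⟨⋃ n, K n, Set.subset_iUnion K 0, ?_, ?_⟩
  · have h1 : #(⋃ n : ULift.{u} ℕ, K n.down) ≤ ν := by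
      refine (mk_iUnion_le _).trans ?_
      have h2 : (⨆ n : ULift.{u} ℕ, #(K n.down)) ≤ ν := ciSup_le' fun n => hcard _
      calc #(ULift.{u} ℕ) * (⨆ n : ULift.{u} ℕ, #(K n.down)) ≤ ν * ν :=
            mul_le_mul' (by simpa using hν) h2
        _ = ν := mul_eq_self hν
    have e : (⋃ n, K n) = ⋃ n : ULift.{u} ℕ, K n.down := by
      ext x
      simp
    rw [e]
    exact h1
  · intro j a b ha hb
    obtain ⟨m, hm⟩ := Set.mem_iUnion.1 ha
    obtain ⟨n, hn⟩ := Set.mem_iUnion.1 hb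
    refine Set.mem_iUnion.2 ⟨max m n + 1, ?_⟩
    rw [hK]
    exact Or.inr ⟨(j, ⟨a, hmono (le_max_left _ _) hm⟩, ⟨b, hmono (le_max_right _ _) hn⟩), rfl⟩

variable {R : Type u} [Ring R]

theorem card_finsupp_le {ν : Cardinal.{u}} (hν : ℵ₀ ≤ ν) (hR : #R ≤ ν) (M : Type u)
    (hM : #M ≤ ν) : #(M →₀ R) ≤ ν := by
  rcases finite_or_infinite M with h | h
  · rcases finite_or_infinite R with h' | h'
    · have : #(M →₀ R) < ℵ₀ := by
        have := Finite.of_injective (fun (f : M →₀ R) => (f : M → R)) DFunLike.coe_injective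
        exact lt_aleph0_of_finite _
      exact this.le.trans hν
    · rcases isEmpty_or_nonempty M with h'' | h''
      · have : Finite (M →₀ R) :=
          Finite.of_injective (fun (f : M →₀ R) => (f : M → R)) DFunLike.coe_injective
        exact (lt_aleph0_of_finite _).le.trans hν
      · rw [mk_finsupp_of_infinite']
        exact max_le hM hR
  · rcases subsingleton_or_nontrivial R with h' | h'
    · have : Finite (M →₀ R) := Finite.of_subsingleton
      exact (lt_aleph0_of_finite _).le.trans hν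
    · rw [mk_finsupp_of_infinite]
      exact max_le hM hR

theorem isPresented_of_card {ν κ : Cardinal.{u}} (hν : ℵ₀ ≤ ν) (hR : #R ≤ ν) (hκ : ν < κ)
    (M : ModuleCat.{u} R) (hM : #M ≤ ν) : IsPresented κ M := by
  let p : (M →₀ R) →ₗ[R] M := Finsupp.linearCombination R id
  have hc : #(M →₀ R) ≤ ν := card_finsupp_le hν hR M hM
  refine ⟨M, LinearMap.ker p, p, Finsupp.linearCombination R Subtype.val, hM.trans_lt hκ,
    ((mk_set_le _).trans hc).trans_lt hκ, ?_, ?_⟩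
  · intro x
    exact ⟨Finsupp.single x 1, by simp [p]⟩
  · rw [Finsupp.range_linearCombination, Subtype.range_coe_subtype]
    exact Submodule.span_eq (LinearMap.ker p)

namespace GermSys

variable {T : Type u} {A : T → ModuleCat.{u} R} {N : ModuleCat.{u} R} (S : GermSys A N)

/-- operations for the small pure extension -/
inductive Opn {R : Type u} [Ring R] {T : Type u} (A : T → ModuleCat.{u} R) : Type u
  | zero (t : T) : Opn A
  | add : Opn A
  | neg : Opn A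
  | act (t t' : T) (g : A t' →ₗ[R] A t) : Opn A
  | sko (t t' : T) (g : A t' →ₗ[R] A t) : Opn A

theorem card_opn {R : Type u} [Ring R] {T : Type u} (A : T → ModuleCat.{u} R) (ν : Cardinal.{u}) (hν : ℵ₀ ≤ ν)
    (hT : #T ≤ ν) (hH : ∀ t t', #(A t' →ₗ[R] A t) ≤ ν) : #(Opn A) ≤ ν := by
  let H : Type u := Σ t : T, Σ t' : T, (A t' →ₗ[R] A t)
  have hHc : #H ≤ ν := by
    rw [mk_sigma]
    have h1 : ∀ t, #(Σ t' : T, (A t' →ₗ[R] A t)) ≤ ν := by
      intro t
      rw [mk_sigma]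
      calc Cardinal.sum (fun t' : T => #(A t' →ₗ[R] A t)) ≤ Cardinal.sum (fun _ : T => ν) :=
            Cardinal.sum_le_sum _ _ (fun t' => hH t t')
        _ = #T * ν := by simp
        _ ≤ ν * ν := mul_le_mul' hT le_rfl
        _ = ν := mul_eq_self hν
    calc Cardinal.sum (fun t : T => #(Σ t' : T, (A t' →ₗ[R] A t)))
        ≤ Cardinal.sum (fun _ : T => ν) := Cardinal.sum_le_sum _ _ h1
      _ = #T * ν := by simp
      _ ≤ ν * ν := mul_le_mul' hT le_rfl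
      _ = ν := mul_eq_self hν
  have hinj : ∃ f : Opn A → (T ⊕ (PUnit.{u+1} ⊕ PUnit.{u+1}) ⊕ H ⊕ H), Function.Injective f := by
    refine ⟨fun o => match o with
      | .zero t => Sum.inl t
      | .add => Sum.inr (Sum.inl (Sum.inl ⟨⟩))
      | .neg => Sum.inr (Sum.inl (Sum.inr ⟨⟩))
      | .act t t' g => Sum.inr (Sum.inr (Sum.inl ⟨t, t', g⟩))
      | .sko t t' g => Sum.inr (Sum.inr (Sum.inr ⟨t, t', g⟩)), ?_⟩
    intro a b h
    cases a <;> cases b <;> simp at h <;> first | rfl | (subst h; rfl) | skip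
    all_goals (obtain ⟨rfl, h⟩ := Sigma.mk.inj_iff.1 h; cases h; rfl)
  obtain ⟨f, hf⟩ := hinj
  refine (mk_le_of_injective hf).trans ?_
  simp only [mk_sum, lift_id]
  have h1 : #PUnit.{u+1} ≤ ν := (by simp : #PUnit.{u+1} = 1).le.trans (one_le_aleph0.trans hν)
  have := add_eq_self hν
  calc #T + ((#PUnit.{u+1} + #PUnit.{u+1}) + (#H + #H)) ≤ ν + ((ν + ν) + (ν + ν)) :=
        add_le_add hT (add_le_add (add_le_add h1 h1) (add_le_add hHc hHc))
    _ = ν := by rw [this, this, this]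

open Classical in
/-- the action of the operations on the elements of `S` -/
noncomputable def opn (G : ∀ t, Set (S.F t)) : Opn A → (Σ t, S.F t) → (Σ t, S.F t) → Σ t, S.F t
  | .zero t, _, _ => ⟨t, 0⟩
  | .add, a, b => if h : b.1 = a.1 then ⟨a.1, a.2 + h ▸ b.2⟩ else a
  | .neg, a, _ => ⟨a.1, -a.2⟩
  | .act t t' g, a, _ => if h : a.1 = t then ⟨t', S.act (h ▸ a.2) g⟩ else a
  | .sko t t' g, a, _ => if h : ∃ e : a.1 = t', ∃ q : S.F t, S.act q g - e ▸ a.2 ∈ G t' then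
      ⟨t, h.2.choose⟩ else a

theorem exists_small_pure {G : ∀ t, Set (S.F t)} (hG : S.IsPure G) (ν : Cardinal.{u})
    (hν : ℵ₀ ≤ ν) (hT : #T ≤ ν) (hH : ∀ t t', #(A t' →ₗ[R] A t) ≤ ν) {t₀ : T} (q₀ : S.F t₀) :
    ∃ (K : Set (Σ t, S.F t)) (G' : ∀ t, Set (S.F t)), S.IsPure G' ∧ G ≤ G' ∧ q₀ ∈ G' t₀ ∧
      #K ≤ ν ∧ ∀ t (q : S.F t), q ∈ G' t ↔ ∃ k : S.F t, (⟨t, k⟩ : Σ t, S.F t) ∈ K ∧ q - k ∈ G t := by
  obtain ⟨K, h1, h2, h3⟩ := exists_closed (S.opn G) {⟨t₀, q₀⟩} ν hν (card_opn A ν hν hT hH)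
    (by simpa using one_le_aleph0.trans hν)
  have hz : ∀ t, (⟨t, 0⟩ : Σ t, S.F t) ∈ K := fun t => h3 (.zero t) _ _ (h1 rfl) (h1 rfl)
  have ha : ∀ t (k k' : S.F t), (⟨t, k⟩ : Σ t, S.F t) ∈ K → (⟨t, k'⟩ : Σ t, S.F t) ∈ K →
      (⟨t, k + k'⟩ : Σ t, S.F t) ∈ K := by
    intro t k k' hk hk'
    have := h3 .add _ _ hk hk'
    simpa [opn] using this
  have hn : ∀ t (k : S.F t), (⟨t, k⟩ : Σ t, S.F t) ∈ K → (⟨t, -k⟩ : Σ t, S.F t) ∈ K :=
    fun t k hk => h3 .neg _ _ hk hk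
  have hact : ∀ t t' (k : S.F t) (g : A t' →ₗ[R] A t), (⟨t, k⟩ : Σ t, S.F t) ∈ K →
      (⟨t', S.act k g⟩ : Σ t, S.F t) ∈ K := by
    intro t t' k g hk
    have := h3 (.act t t' g) _ _ hk hk
    simpa [opn] using this
  have hsk : ∀ t t' (k : S.F t') (g : A t' →ₗ[R] A t), (⟨t', k⟩ : Σ t, S.F t) ∈ K →
      (∃ q : S.F t, S.act q g - k ∈ G t') → ∃ q : S.F t, (⟨t, q⟩ : Σ t, S.F t) ∈ K ∧
        S.act q g - k ∈ G t' := by
    intro t t' k g hk hq
    have h := h3 (.sko t t' g) _ _ hk hk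
    have hc : ∃ e : (⟨t', k⟩ : Σ t, S.F t).1 = t', ∃ q : S.F t,
        S.act q g - e ▸ (⟨t', k⟩ : Σ t, S.F t).2 ∈ G t' := ⟨rfl, hq⟩
    have e : S.opn G (.sko t t' g) ⟨t', k⟩ ⟨t', k⟩ = ⟨t, hc.2.choose⟩ := by
      simp only [opn]
      rw [dif_pos hc]
    rw [e] at h
    exact ⟨_, h, hc.2.choose_spec⟩
  let G' : ∀ t, Set (S.F t) := fun t => {q | ∃ k : S.F t, (⟨t, k⟩ : Σ t, S.F t) ∈ K ∧ q - k ∈ G t}
  have hle : G ≤ G' := fun t q hq => ⟨0, hz t, by simpa using hq⟩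
  refine ⟨K, G', ?_, hle, ⟨q₀, h1 rfl, by rw [sub_self]; exact hG.zero _⟩, h2, fun t q => Iff.rfl⟩
  refine { zero := fun t => hle t (hG.zero t), add := ?_, neg := ?_, act := ?_, pure := ?_ }
  · rintro t q q' ⟨k, hk, h⟩ ⟨k', hk', h'⟩
    refine ⟨k + k', ha t k k' hk hk', ?_⟩
    have := hG.add _ _ h h'
    rwa [show q + q' - (k + k') = q - k + (q' - k') by abel]
  · rintro t q ⟨k, hk, h⟩
    refine ⟨-k, hn t k hk, ?_⟩
    have := hG.neg _ h
    rwa [show -q - -k = -(q - k) by abel]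
  · rintro t t' q g ⟨k, hk, h⟩
    refine ⟨S.act k g, hact _ _ k g hk, ?_⟩
    rw [← S.sub_act]
    exact hG.act _ _ h
  · rintro t t' q g ⟨k, hk, h⟩
    obtain ⟨q₁, hq₁, h₁⟩ := hsk t t' k g hk ⟨q, h⟩
    have h4 : S.act (q - q₁) g ∈ G t' := by
      rw [S.sub_act, show S.act q g - S.act q₁ g = (S.act q g - k) - (S.act q₁ g - k) by abel]
      exact hG.sub h h₁
    obtain ⟨q₂, h5, h6⟩ := hG.pure _ _ h4
    refine ⟨q₁ + q₂, ⟨q₁, hq₁, by simpa using h5⟩, ?_⟩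
    rw [S.act_add, h6, S.sub_act]
    abel

theorem sSup_mem {c : Set (∀ t, Set (S.F t))} {t : T} {q : S.F t} :
    q ∈ (sSup c) t ↔ ∃ G ∈ c, q ∈ G t := by
  rw [sSup_apply, Set.iSup_eq_iUnion, Set.mem_iUnion]
  simp

theorem isPure_sSup {c : Set (∀ t, Set (S.F t))} (h : ∀ G ∈ c, S.IsPure G)
    (hc : IsChain (· ≤ ·) c) (hne : c.Nonempty) : S.IsPure (sSup c) := by
  have h1 : ∀ {t t'} (q : S.F t) (q' : S.F t'), q ∈ (sSup c) t → q' ∈ (sSup c) t' →
      ∃ G ∈ c, q ∈ G t ∧ q' ∈ G t' := by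
    intro t t' q q' hq hq'
    obtain ⟨G, hG, h2⟩ := S.sSup_mem.1 hq
    obtain ⟨G', hG', h2'⟩ := S.sSup_mem.1 hq'
    rcases hc.total hG hG' with h3 | h3
    · exact ⟨G', hG', h3 t h2, h2'⟩
    · exact ⟨G, hG, h2, h3 t' h2'⟩
  refine { zero := ?_, add := ?_, neg := ?_, act := ?_, pure := ?_ }
  · intro t
    obtain ⟨G, hG⟩ := hne
    exact S.sSup_mem.2 ⟨G, hG, (h G hG).zero t⟩
  · intro t q q' hq hq'
    obtain ⟨G, hG, h2, h3⟩ := h1 q q' hq hq'
    exact S.sSup_mem.2 ⟨G, hG, (h G hG).add _ _ h2 h3⟩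
  · intro t q hq
    obtain ⟨G, hG, h2⟩ := S.sSup_mem.1 hq
    exact S.sSup_mem.2 ⟨G, hG, (h G hG).neg _ h2⟩
  · intro t t' q g hq
    obtain ⟨G, hG, h2⟩ := S.sSup_mem.1 hq
    exact S.sSup_mem.2 ⟨G, hG, (h G hG).act _ _ h2⟩
  · intro t t' q g hq
    obtain ⟨G, hG, h2⟩ := S.sSup_mem.1 hq
    obtain ⟨q₀, h3, h4⟩ := (h G hG).pure _ _ h2
    exact ⟨q₀, S.sSup_mem.2 ⟨G, hG, h3⟩, h4⟩

include S in
theorem hasFiltration (ν κ : Cardinal.{u}) (hν : ℵ₀ ≤ ν) (hκ : ν < κ) (hR : #R ≤ ν)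
    (hT : #T ≤ ν) (hA : ∀ t, #(A t) ≤ ν) (hH : ∀ t t', #(A t' →ₗ[R] A t) ≤ ν) :
    HasFiltration (fun N => (LimClass fun M => ∃ t, Nonempty (M ≃ₗ[R] A t)) N ∧
      IsPresented κ N) N := by
  refine hasFiltration_of_step {G | S.IsPure G} S.sp S.sp_mono (fun t => {0}) ?_ ?_ ?_ ?_ ?_ ?_
  · refine { zero := fun t => rfl, add := ?_, neg := ?_, act := ?_, pure := ?_ }
    · rintro t q q' rfl rfl
      exact add_zero _
    · rintro t q rfl
      exact neg_zero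
    · rintro t t' q g rfl
      exact S.zero_act g
    · rintro t t' q g h
      exact ⟨0, rfl, (S.zero_act g).trans (Set.mem_singleton_iff.1 h).symm⟩
  · rw [eq_bot_iff]
    apply Submodule.span_le.2
    rintro n ⟨t, q, x, rfl, rfl⟩
    exact S.ev_zero x
  · rw [eq_top_iff]
    intro n _
    obtain ⟨t, q, x, rfl⟩ := S.surj n
    exact Submodule.subset_span ⟨t, q, x, trivial, rfl⟩
  · intro c h1 h2 h3
    exact S.isPure_sSup h1 h2 h3
  · intro c h1 h2 h3 x hx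
    obtain ⟨t, q, y, hq, rfl⟩ := (mem_sp (S.isPure_sSup h1 h2 h3)).1 hx
    obtain ⟨G, hG, hq⟩ := S.sSup_mem.1 hq
    exact ⟨G, hG, Submodule.subset_span ⟨t, q, y, hq, rfl⟩⟩
  · intro G hG hne
    obtain ⟨t₀, q₀, hq₀⟩ : ∃ t₀, ∃ q₀ : S.F t₀, q₀ ∉ G t₀ := by
      by_contra hcon
      push Not at hcon
      exact hne (eq_top_iff.2 fun t q _ => hcon t q)
    obtain ⟨K, G', hG', hle, hq, hK, hmem⟩ := S.exists_small_pure hG ν hν hT hH q₀
    refine ⟨G', hG', ⟨hle, fun h => hq₀ (h t₀ hq)⟩, limClass_quot hG hG' hle, ?_⟩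
    refine isPresented_of_card hν hR hκ _ ?_
    let fn : (Σ k : K, A k.1.1) → (S.sp G' ⧸ (S.sp G).submoduleOf (S.sp G')) := fun z =>
      Submodule.Quotient.mk ⟨S.ev z.1.1.2 z.2, (mem_sp hG').2 ⟨_, z.1.1.2, z.2,
        (hmem _ _).2 ⟨z.1.1.2, z.1.2, by rw [sub_self]; exact hG.zero _⟩, rfl⟩⟩
    have hfn : Function.Surjective fn := by
      intro z
      obtain ⟨⟨n, hn⟩, rfl⟩ := Submodule.Quotient.mk_surjective _ z
      obtain ⟨t, q, x, hq, rfl⟩ := (mem_sp hG').1 hn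
      obtain ⟨k, hk, h⟩ := (hmem _ _).1 hq
      refine ⟨⟨⟨⟨t, k⟩, hk⟩, x⟩, ?_⟩
      show Submodule.Quotient.mk _ = Submodule.Quotient.mk _
      rw [Submodule.Quotient.eq]
      show S.ev k x - S.ev q x ∈ S.sp G
      rw [← S.ev_sub]
      refine (mem_sp hG).2 ⟨t, _, x, ?_, rfl⟩
      rw [show k - q = -(q - k) by abel]
      exact hG.neg _ h
    refine (mk_le_of_surjective hfn).trans ?_
    rw [mk_sigma]
    calc Cardinal.sum (fun k : K => #(A k.1.1)) ≤ Cardinal.sum (fun _ : K => ν) :=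
          Cardinal.sum_le_sum _ _ (fun k => hA _)
      _ = #K * ν := by simp
      _ ≤ ν * ν := mul_le_mul' hK le_rfl
      _ = ν := mul_eq_self hν

end GermSys

/-- **The limit closure of a small class of modules is deconstructible.** -/
theorem deconstructible_limClass_of_small {T : Type u} (A : T → ModuleCat.{u} R) :
    Deconstructible (LimClass fun M : ModuleCat.{u} R => ∃ t, Nonempty (M ≃ₗ[R] A t)) := by
  let ν : Cardinal.{u} := ℵ₀ + #R + #T + Cardinal.sum (fun t => #(A t)) +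
    Cardinal.sum (fun z : T × T => #(A z.2 →ₗ[R] A z.1))
  have h1 : ℵ₀ ≤ ν := by
    dsimp only [ν]
    exact (((le_self_add).trans le_self_add).trans le_self_add).trans le_self_add
  have h2 : #R ≤ ν := by
    dsimp only [ν]
    exact (((le_add_self).trans le_self_add).trans le_self_add).trans le_self_add
  have h3 : #T ≤ ν := by
    dsimp only [ν]
    exact (le_add_self.trans le_self_add).trans le_self_add
  have h4 : ∀ t, #(A t) ≤ ν := by
    intro t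
    dsimp only [ν]
    exact ((Cardinal.le_sum (fun t => #(A t)) t).trans le_add_self).trans le_self_add
  have h5 : ∀ t t', #(A t' →ₗ[R] A t) ≤ ν := by
    intro t t'
    dsimp only [ν]
    exact (Cardinal.le_sum (fun z : T × T => #(A z.2 →ₗ[R] A z.1)) (t, t')).trans le_add_self
  refine ⟨Order.succ ν, isRegular_succ h1, ?_⟩
  intro N hN
  obtain ⟨S⟩ := exists_germSys A N hN
  exact S.hasFiltration ν _ h1 (Order.lt_succ ν) h2 h3 h4 h5

end Pool.Agent.H86.Decon
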