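import Pool.Agent.H86.Decon.Hill

/-!
# Vopenka's principle implies the positive answer for all classes
-/

universe u

namespace Pool.Agent.H86.Decon

open CategoryTheory Cardinal FirstOrder

/-- function symbols for modules with named elements -/
inductive ModFun (Λ R : Type u) : ℕ → Type u
  | const (l : Λ) : ModFun Λ R 0
  | smul (r : R) : ModFun Λ R 1
  | add : ModFun Λ R 2

/-- the language of modules with named elements -/
def modLang (Λ R : Type u) : FirstOrder.Language.{u, u} := ⟨ModFun Λ R, fun _ => PEmpty⟩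

/-- a module with named elements as a structure -/
@[reducible] def modStr {Λ R : Type u} [Ring R] (M : Type u) [AddCommGroup M] [Module R M]
    (a : Λ → M) : (modLang Λ R).Structure M where
  funMap {n} f x := match n, f, x with
    | _, .const l, _ => a l
    | _, .smul r, x => r • x 0
    | _, .add, x => x 0 + x 1
  RelMap r _ := r.elim

variable {R : Type u} [Ring R]

/-- under Vopenka's principle, families of elements of members of `C` lie in members of `C` of
bounded size -/
theorem exists_bound_of_vopenka (hV : Vopenka.{u}) {C : ModClass R} (hC : IsoClosed C)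
    (Λ : Type u) : ∃ θ : Cardinal.{u}, ∀ M, C M → ∀ a : Λ → M, ∃ P : Submodule R M,
      (∀ l, a l ∈ P) ∧ #P < θ ∧ C (ModuleCat.of R P) := by
  by_contra hcon
  push Not at hcon
  choose M hM a ha using hcon
  have hsize : ∀ θ, θ ≤ #(M θ) := by
    intro θ
    have h := ha θ ⊤ (fun l => Submodule.mem_top)
    by_contra hlt
    refine h ?_ (hC (M θ) _ ⟨Submodule.topEquiv.symm⟩ (hM θ))
    have : #(⊤ : Submodule R (M θ)) = #(M θ) := mk_congr Submodule.topEquiv.toEquiv
    rw [this]
    exact lt_of_not_ge hlt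
  let θ : Ordinal.{u} → Cardinal.{u} := WellFounded.fix Ordinal.lt_wf
    (fun α f => Order.succ (⨆ β : Set.Iio α, #(M (f β.1 β.2))))
  have hθ : ∀ α, θ α = Order.succ (⨆ β : Set.Iio α, #(M (θ β.1))) := fun α =>
    WellFounded.fix_eq Ordinal.lt_wf _ α
  have hlt : ∀ α β, β < α → #(M (θ β)) < θ α := by
    intro α β h
    rw [hθ α, Order.lt_succ_iff]
    exact le_ciSup (f := fun β : Set.Iio α => #(M (θ β.1))) bddAbove_of_small ⟨β, h⟩
  let _ : ∀ α, (modLang Λ R).Structure (M (θ α)) := fun α => modStr (M (θ α)) (a (θ α))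
  obtain ⟨α, β, hne, ⟨j⟩⟩ := hV (modLang Λ R) (fun α => M (θ α))
  have hc : ∀ l, j (a (θ α) l) = a (θ β) l := fun l =>
    j.map_fun (ModFun.const l : (modLang Λ R).Functions 0) ![]
  have hs : ∀ (r : R) x, j (r • x) = r • j x := fun r x =>
    j.map_fun (ModFun.smul r : (modLang Λ R).Functions 1) ![x]
  have hadd : ∀ x y, j (x + y) = j x + j y := fun x y =>
    j.map_fun (ModFun.add : (modLang Λ R).Functions 2) ![x, y]
  have hinj : Function.Injective j := j.injective
  rcases lt_or_gt_of_ne hne with h | h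
  · let J : M (θ α) →ₗ[R] M (θ β) :=
      { toFun := j, map_add' := hadd, map_smul' := fun r x => hs r x }
    let e : M (θ α) ≃ₗ[R] LinearMap.range J := LinearEquiv.ofInjective J hinj
    refine ha (θ β) (LinearMap.range J) (fun l => ⟨a (θ α) l, hc l⟩) ?_
      (hC (M (θ α)) _ ⟨e⟩ (hM _))
    rw [← mk_congr e.toEquiv]
    exact hlt β α h
  · have h1 : #(M (θ α)) ≤ #(M (θ β)) := mk_le_of_injective hinj
    exact absurd ((hsize (θ α)).trans h1) (not_le_of_gt (hlt α β h))

theorem exists_smallSub_of_vopenka (hV : Vopenka.{u}) {C : ModClass R} (hC : IsoClosed C) :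
    ∃ κ : Cardinal.{u}, ℵ₀ ≤ κ ∧ SmallSub κ C := by
  have h := fun κ : Cardinal.{u} => exists_bound_of_vopenka hV hC κ.out
  choose t ht using h
  let k : ℕ → Cardinal.{u} := fun n => Nat.rec ℵ₀ (fun _ c => max (Order.succ c) (t c)) n
  have hk : ∀ n, k (n + 1) = max (Order.succ (k n)) (t (k n)) := fun n => rfl
  have hbdd : BddAbove (Set.range k) := bddAbove_of_small
  have hlt : ∀ n, k n < ⨆ n, k n := by
    intro n
    refine (Order.lt_succ (k n)).trans_le ((le_max_left _ (t (k n))).trans ?_)
    rw [← hk]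
    exact le_ciSup hbdd (n + 1)
  refine ⟨⨆ n, k n, (le_refl ℵ₀).trans (le_ciSup hbdd 0), ?_⟩
  intro M hM X hX
  obtain ⟨n, hn⟩ : ∃ n, #X < k n := by
    by_contra hcon
    push Not at hcon
    exact absurd (ciSup_le' hcon) (not_le_of_gt hX)
  have h1 : #X ≤ #(k n).out := by rw [mk_out]; exact hn.le
  obtain ⟨i⟩ := h1
  let a : (k n).out → M := Function.extend i (fun x => x.1) (fun _ => 0)
  obtain ⟨P, h2, h3, h4⟩ := ht (k n) M hM a
  refine ⟨P, ?_, ?_, h4⟩
  · intro x hx
    have : a (i ⟨x, hx⟩) = x := i.injective.extend_apply _ _ _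
    rw [← this]
    exact h2 _
  · refine h3.trans_le ((le_max_right (Order.succ (k n)) _).trans ?_)
    rw [← hk]
    exact le_ciSup hbdd (n + 1)

theorem deconstructible_limClass_of_vopenka (hV : Vopenka.{u}) {C : ModClass R}
    (hC : IsoClosed C) : Deconstructible (LimClass C) := by
  obtain ⟨κ, h1, h2⟩ := exists_smallSub_of_vopenka hV hC
  exact deconstructible_limClass_of_smallSub hC h1 h2

end Pool.Agent.H86.Decon
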